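import Pool.Agent.K7.H32.FT.Stm
import Pool.Agent.W709.QAT.Calc

/-! Project FT, job JL: lower bound of the products of the `min (1, |{k}|)` on the circle. -/

set_option autoImplicit false

namespace Pool.Agent.K7.H47.FTJL

open Finset Filter Topology Pool.Agent.H550R3.Jones Pool.Agent.W715.VC Pool.Agent.K7.H32.FT
open GapVol (lob)
open scoped Real

/-- the factor at the root of unity -/
noncomputable def s (N k : ℕ) : ℝ := min 1 (2 * Real.sin (π * (k : ℕ) / N))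

lemma s_nonneg {N k : ℕ} (hk : k ≤ N) (hN : 0 < N) : 0 ≤ s N k := by
  have hN' : (0 : ℝ) < N := by exact_mod_cast hN
  have hk' : (k : ℝ) ≤ N := by exact_mod_cast hk
  have h : 0 ≤ Real.sin (π * (k : ℕ) / N) := by
    apply Real.sin_nonneg_of_nonneg_of_le_pi
    · have := Real.pi_pos; positivity
    · rw [div_le_iff₀ hN']
      have := Real.pi_pos
      nlinarith
  unfold s
  exact le_min (by norm_num) (by linarith)

lemma low_prod {N m : ℕ} (hN : 0 < N) (hm : 2 * m ≤ N)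
    (h : 0 < m → 2 * Real.sin (π * (m : ℕ) / N) ≤ 1) :
    ∏ j ∈ range m, s N (j + 1) = Real.exp (GapVol.L N m) := by
  have hN' : (0 : ℝ) < N := by exact_mod_cast hN
  rw [GapVol.L, Real.exp_sum]
  apply prod_congr rfl
  intro j hj
  rw [mem_range] at hj
  have h1 := h (by omega)
  have hp : 0 < Real.sin (π * ((j + 1 : ℕ) : ℝ) / N) := GapVol.sin_pos_of (by omega) (by omega)
  have h2 : Real.sin (π * ((j + 1 : ℕ) : ℝ) / N) ≤ Real.sin (π * (m : ℕ) / N) := by
    apply Real.sin_le_sin_of_le_of_le_pi_div_two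
    · have : 0 ≤ π * ((j + 1 : ℕ) : ℝ) / N := by have := Real.pi_pos; positivity
      linarith [Real.pi_pos]
    · rw [div_le_div_iff₀ hN' (by norm_num)]
      have : (2 : ℝ) * m ≤ N := by exact_mod_cast hm
      nlinarith [Real.pi_pos]
    · have : ((j + 1 : ℕ) : ℝ) ≤ m := by exact_mod_cast hj
      have := Real.pi_pos
      gcongr
  rw [s, min_eq_right (by linarith), GapVol.lf, Real.exp_log (by positivity)]

lemma low_exp {N m : ℕ} (hN : 0 < N) (hm : 2 * m ≤ N) :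
    Real.exp (-(N / π * lob (π / 6))) ≤ Real.exp (GapVol.L N m) := by
  have hN' : (0 : ℝ) < N := by exact_mod_cast hN
  have hpi := Real.pi_pos
  have h1 := GapVol.riemann_upper hN hm
  have h2 := Pool.Agent.W709.QAT.lob_max (π * m / N)
  rw [Real.exp_le_exp]
  have h3 : π / N * (-GapVol.L N m) ≤ lob (π / 6) := h1.trans h2
  have h4 : N / π * (π / N * (-GapVol.L N m)) ≤ N / π * lob (π / 6) := by gcongr
  have h5 : N / π * (π / N * (-GapVol.L N m)) = -GapVol.L N m := by field_simp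
  linarith

lemma low_half {N : ℕ} (hN : 0 < N) (m : ℕ) (hm : 2 * m ≤ N) :
    Real.exp (-(N / π * lob (π / 6))) ≤ ∏ j ∈ range m, s N (j + 1) := by
  induction m with
  | zero =>
    have := low_exp hN (m := 0) (by omega)
    rw [GapVol.L_zero, Real.exp_zero] at this
    simpa using this
  | succ m ih =>
    by_cases h : 2 * Real.sin (π * ((m + 1 : ℕ) : ℝ) / N) ≤ 1
    · rw [low_prod hN hm (fun _ => h)]
      exact low_exp hN hm
    · rw [prod_range_succ]
      have : s N (m + 1) = 1 := by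
        rw [s, min_eq_left (by linarith)]
      rw [this, mul_one]
      exact ih (by omega)

lemma s_refl {N k : ℕ} (h : k ≤ N) (hN : 0 < N) : s N (N - k) = s N k := by
  rw [s, s, GapVol.sin_symm h hN]

lemma low_block {N : ℕ} (hN : 0 < N) :
    Real.exp (-(2 * (N / π * lob (π / 6)))) ≤ ∏ j ∈ range (N - 1), s N (j + 1) := by
  have h1 := low_half hN (N / 2) (by omega)
  have h2 := low_half hN (N - 1 - N / 2) (by omega)
  have h3 : N - 1 = N / 2 + (N - 1 - N / 2) := by omega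
  rw [h3, prod_range_add]
  have h4 : ∏ x ∈ range (N - 1 - N / 2), s N (N / 2 + x + 1) =
      ∏ x ∈ range (N - 1 - N / 2), s N (x + 1) := by
    rw [← prod_range_reflect]
    apply prod_congr rfl
    intro x hx
    rw [mem_range] at hx
    rw [← s_refl (k := x + 1) (by omega) hN]
    congr 1
    omega
  rw [h4, show -(2 * (N / π * lob (π / 6))) = -(N / π * lob (π / 6)) + -(N / π * lob (π / 6)) by ring,
    Real.exp_add]
  exact mul_le_mul h1 h2 (by positivity)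
    (prod_nonneg fun x hx => s_nonneg (by rw [mem_range] at hx; omega) hN)

/-! ### The powers near one -/

lemma pow_near {w : ℂ} {r : ℝ} (hr : 0 ≤ r) (h : ‖w - 1‖ ≤ r) (k : ℕ) (hk : k * r ≤ 1 / 2) :
    ‖w ^ k - 1‖ ≤ 2 * k * r := by
  induction k with
  | zero => simp
  | succ k ih =>
    have hk' : (k : ℝ) * r ≤ 1 / 2 := by
      push_cast at hk
      nlinarith
    have h1 := ih hk'
    have h2 : ‖w ^ k‖ ≤ 2 := by
      have : w ^ k = (w ^ k - 1) + 1 := by ring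
      rw [this]
      refine (norm_add_le _ _).trans ?_
      rw [norm_one]
      nlinarith
    have h3 : w ^ (k + 1) - 1 = w ^ k * (w - 1) + (w ^ k - 1) := by ring
    rw [h3]
    refine (norm_add_le _ _).trans ?_
    rw [norm_mul]
    have h4 : ‖w ^ k‖ * ‖w - 1‖ ≤ 2 * r := mul_le_mul h2 h (norm_nonneg _) (by norm_num)
    push_cast
    linarith

lemma pow_low {w : ℂ} {r : ℝ} (hr : 0 ≤ r) (h : ‖w - 1‖ ≤ r) (k : ℕ) (hk : k * r ≤ 1 / 4) :
    1 / 2 ≤ ‖w ^ k‖ := by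
  have h1 := pow_near hr h k (by linarith)
  have h2 : ‖(1 : ℂ)‖ ≤ ‖w ^ k‖ + ‖w ^ k - 1‖ := by
    have : (1 : ℂ) = w ^ k - (w ^ k - 1) := by ring
    conv_lhs => rw [this]
    exact norm_sub_le _ _
  rw [norm_one] at h2
  linarith

lemma pow_up {w : ℂ} {r : ℝ} (hr : 0 ≤ r) (h : ‖w - 1‖ ≤ r) (k : ℕ) (hk : k * r ≤ 1 / 2) :
    ‖w ^ k‖ ≤ 2 := by
  have h1 := pow_near hr h k hk
  have : w ^ k = (w ^ k - 1) + 1 := by ring
  rw [this]
  refine (norm_add_le _ _).trans ?_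
  rw [norm_one]
  linarith

lemma br_mul (N : ℕ) (w : ℂ) (k : ℕ) :
    br (rt N * w) k = rt N ^ (k : ℤ) * w ^ k - rt N ^ (-(k : ℤ)) * (w ^ k)⁻¹ := by
  rw [br, mul_zpow, mul_zpow, zpow_natCast, zpow_natCast, zpow_neg w, zpow_natCast]

lemma br_diff {N : ℕ} {w : ℂ} {r : ℝ} (hr : 0 ≤ r) (h : ‖w - 1‖ ≤ r) (k : ℕ) (hk : k * r ≤ 1 / 4) :
    ‖br (rt N * w) k - br (rt N) k‖ ≤ 6 * k * r := by
  have h1 := pow_near hr h k (by linarith)
  have h2 := pow_low hr h k hk
  have h3 : w ^ k ≠ 0 := by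
    intro h0
    rw [h0, norm_zero] at h2
    norm_num at h2
  have h4 : br (rt N * w) k - br (rt N) k =
      rt N ^ (k : ℤ) * (w ^ k - 1) + rt N ^ (-(k : ℤ)) * ((w ^ k - 1) * (w ^ k)⁻¹) := by
    rw [br_mul, br]
    field_simp
    ring
  rw [h4]
  refine (norm_add_le _ _).trans ?_
  rw [norm_mul, norm_mul, norm_mul, norm_rt_zpow, norm_rt_zpow, norm_inv]
  have h5 : ‖w ^ k‖⁻¹ ≤ 2 := by
    rw [inv_le_comm₀ (by linarith) (by norm_num)]
    linarith
  have h6 : ‖w ^ k - 1‖ * ‖w ^ k‖⁻¹ ≤ (2 * k * r) * 2 :=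
    mul_le_mul h1 h5 (by positivity) (by positivity)
  linarith

lemma br_top {N : ℕ} (hN : 0 < N) {w : ℂ} {r : ℝ} (hr : 0 ≤ r) (h : ‖w - 1‖ = r) (m : ℕ)
    (hm : 1 ≤ m) (hk : (2 * (m * N) : ℕ) * r ≤ 1 / 4) :
    r / 2 ≤ ‖br (rt N * w) (m * N : ℕ)‖ := by
  have hN1 : (1 : ℝ) ≤ N := by exact_mod_cast hN
  have hm1 : (1 : ℝ) ≤ m := by exact_mod_cast hm
  set K : ℕ := m * N with hK
  have hK1 : (1 : ℝ) ≤ K := by rw [hK]; push_cast; nlinarith
  have hk1 : (K : ℝ) * r ≤ 1 / 4 := by push_cast at hk; nlinarith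
  have h2 := pow_low hr h.le K hk1
  have h2' := pow_up hr h.le K (by linarith)
  have h3 : w ^ K ≠ 0 := by
    intro h0
    rw [h0, norm_zero] at h2
    norm_num at h2
  have hrt : rt N ^ (K : ℤ) = (-1) ^ m := by
    rw [zpow_natCast, hK, mul_comm, pow_mul, rt_pow_N hN]
  have hrt' : rt N ^ (-(K : ℤ)) = (-1) ^ m := by
    rw [zpow_neg, hrt]
    rcases neg_one_pow_eq_or ℂ m with h | h <;> rw [h] <;> norm_num
  have h4 : br (rt N * w) K = (-1) ^ m * (w ^ K)⁻¹ * (w ^ (2 * K) - 1) := by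
    rw [br_mul, hrt, hrt', two_mul, pow_add]
    field_simp
  rw [h4, norm_mul, norm_mul, norm_pow, norm_neg, norm_one, one_pow, one_mul, norm_inv]
  have h5 : 1 / 2 ≤ ‖w ^ K‖⁻¹ := by
    rw [one_div]
    exact inv_anti₀ (by linarith) h2'
  -- `w ^ (2 K) - 1 = (w - 1) * ∑ w ^ i`
  have h6 : w ^ (2 * K) - 1 = (∑ i ∈ range (2 * K), w ^ i) * (w - 1) :=
    (geom_sum_mul w (2 * K)).symm
  have h7 : (1 : ℝ) ≤ ‖∑ i ∈ range (2 * K), w ^ i‖ := by
    have e1 : ∑ i ∈ range (2 * K), w ^ i = ((2 * K : ℕ) : ℂ) + ∑ i ∈ range (2 * K), (w ^ i - 1) := by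
      rw [sum_sub_distrib]
      simp
    have e2 : ‖∑ i ∈ range (2 * K), (w ^ i - 1)‖ ≤ (2 * K : ℕ) * (1 / 2) := by
      refine (_root_.norm_sum_le _ _).trans ?_
      have : ∀ i ∈ range (2 * K), ‖w ^ i - 1‖ ≤ 1 / 2 := by
        intro i hi
        rw [mem_range] at hi
        have hi' : (i : ℝ) ≤ (2 * K : ℕ) := by exact_mod_cast hi.le
        have e3 : (i : ℝ) * r ≤ 1 / 4 := by
          refine le_trans ?_ hk
          gcongr
        refine (pow_near hr h.le i (by linarith)).trans ?_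
        linarith
      refine (sum_le_sum this).trans ?_
      rw [sum_const, card_range, nsmul_eq_mul]
    have e4 : ‖((2 * K : ℕ) : ℂ)‖ = (2 * K : ℕ) := by simp
    have e5 : ‖((2 * K : ℕ) : ℂ)‖ ≤ ‖∑ i ∈ range (2 * K), w ^ i‖ +
        ‖∑ i ∈ range (2 * K), (w ^ i - 1)‖ := by
      have : ((2 * K : ℕ) : ℂ) = ∑ i ∈ range (2 * K), w ^ i - ∑ i ∈ range (2 * K), (w ^ i - 1) := by
        rw [e1]; ring
      conv_lhs => rw [this]
      exact norm_sub_le _ _
    rw [e4] at e5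
    push_cast at e2 e5 ⊢
    linarith
  rw [h6, norm_mul, h]
  have h8 : (1 : ℝ) * r ≤ ‖∑ i ∈ range (2 * K), w ^ i‖ * r := mul_le_mul_of_nonneg_right h7 hr
  have h9 : (1 / 2 : ℝ) * (1 * r) ≤ ‖w ^ K‖⁻¹ * (‖∑ i ∈ range (2 * K), w ^ i‖ * r) :=
    mul_le_mul h5 h8 (by positivity) (by positivity)
  linarith

/-! ### One period -/

lemma norm_br_rt {N : ℕ} (hN : 0 < N) (m j : ℕ) (hj : j < N) :
    ‖br (rt N) (m * N + j : ℕ)‖ = 2 * Real.sin (π * (j : ℕ) / N) := by
  have hN' : (0 : ℝ) < N := by exact_mod_cast hN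
  have hj' : (j : ℝ) ≤ N := by exact_mod_cast hj.le
  rw [br_rt, norm_mul, norm_mul, Complex.norm_I, Complex.norm_real, sn]
  have e1 : π * (((m * N + j : ℕ) : ℤ) : ℝ) / N = π * (j : ℕ) / N + (m : ℕ) * π := by
    push_cast
    field_simp
    ring
  rw [e1, Real.sin_add_nat_mul_pi, norm_mul, norm_pow, norm_neg, norm_one, one_pow, one_mul]
  have h : 0 ≤ Real.sin (π * (j : ℕ) / N) := by
    apply Real.sin_nonneg_of_nonneg_of_le_pi
    · have := Real.pi_pos; positivity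
    · rw [div_le_iff₀ hN']
      have := Real.pi_pos
      nlinarith
  rw [Real.norm_eq_abs, abs_of_nonneg h]
  simp

/-- `sin (π j / N) ≥ 2 / N` -/
lemma sin_low {N j : ℕ} (h0 : 1 ≤ j) (h1 : j < N) : 2 / (N : ℝ) ≤ Real.sin (π * (j : ℕ) / N) := by
  have hN' : (0 : ℝ) < N := by exact_mod_cast (by omega : 0 < N)
  have key : ∀ i : ℕ, 1 ≤ i → 2 * i ≤ N → 2 / (N : ℝ) ≤ Real.sin (π * (i : ℕ) / N) := by
    intro i hi hi2
    have hi' : (1 : ℝ) ≤ i := by exact_mod_cast hi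
    have hi2' : 2 * (i : ℝ) ≤ N := by exact_mod_cast hi2
    have hpi := Real.pi_pos
    have h := Real.mul_le_sin (x := π * (i : ℕ) / N) (by positivity)
      (by rw [div_le_div_iff₀ hN' (by norm_num)]; nlinarith)
    refine le_trans ?_ h
    have : 2 / π * (π * (i : ℕ) / N) = 2 * i / N := by field_simp
    rw [this]
    gcongr
    linarith
  by_cases h : 2 * j ≤ N
  · exact key j h0 h
  · rw [← GapVol.sin_symm h1.le (by omega)]
    exact key (N - j) (by omega) (by omega)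

lemma block {N : ℕ} (hN : 0 < N) {n m : ℕ} (hm : m < n) {w : ℂ}
    (h : ‖w - 1‖ = 1 / (N : ℝ) ^ 4) (hn : (8 * n : ℕ) ≤ N) :
    (1 - 2 * n / (N : ℝ) ^ 2) ^ (N - 1) * Real.exp (-(2 * (N / π * lob (π / 6)))) *
      (1 / (2 * (N : ℝ) ^ 4)) ≤
      ∏ j ∈ range N, min 1 ‖br (rt N * w) ((m * N + j : ℕ) + 1 : ℤ)‖ := by
  have hN' : (0 : ℝ) < N := by exact_mod_cast hN
  have hN1 : (1 : ℝ) ≤ N := by exact_mod_cast hN
  have hn' : 8 * (n : ℝ) ≤ N := by exact_mod_cast hn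
  have hn0 : (1 : ℝ) ≤ n := by exact_mod_cast (by omega : 1 ≤ n)
  have hm' : (m : ℝ) + 1 ≤ n := by exact_mod_cast hm
  set r : ℝ := 1 / (N : ℝ) ^ 4 with hr
  have hr0 : 0 ≤ r := by positivity
  have hr0' : 0 < r := by positivity
  have hk : ∀ k : ℕ, k ≤ n * N → (k : ℝ) * r ≤ n / (N : ℝ) ^ 3 := by
    intro k hk
    have : (k : ℝ) ≤ n * N := by exact_mod_cast hk
    calc (k : ℝ) * r ≤ (n * N) * r := by gcongr
      _ = n / (N : ℝ) ^ 3 := by rw [hr]; field_simp
  have hq : (n : ℝ) / (N : ℝ) ^ 3 ≤ 1 / 8 := by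
    rw [div_le_div_iff₀ (by positivity) (by norm_num)]
    have : (1 : ℝ) ≤ N ^ 2 := one_le_pow₀ hN1
    have e : (N : ℝ) ^ 3 = N * N ^ 2 := by ring
    rw [e]
    nlinarith
  have hδ0 : 0 ≤ 1 - 2 * n / (N : ℝ) ^ 2 := by
    rw [sub_nonneg, div_le_one (by positivity)]
    nlinarith
  have hδ1 : 1 - 2 * n / (N : ℝ) ^ 2 ≤ 1 := by
    have : 0 ≤ 2 * n / (N : ℝ) ^ 2 := by positivity
    linarith
  have hlast : (1 / (2 * (N : ℝ) ^ 4)) ≤ min 1 ‖br (rt N * w) ((m * N + (N - 1) : ℕ) + 1 : ℤ)‖ := by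
    have e1 : (((m * N + (N - 1) : ℕ) : ℤ) + 1 : ℤ) = (((m + 1) * N : ℕ) : ℤ) := by
      have : (m + 1) * N = m * N + (N - 1) + 1 := by
        rw [add_mul, one_mul]; omega
      rw [this]
      push_cast
      ring
    rw [e1]
    have h1 := br_top hN hr0 h (m + 1) (by omega) (by
      have e2 : ((2 * ((m + 1) * N) : ℕ) : ℝ) * r = 2 * ((((m + 1) * N : ℕ) : ℝ) * r) := by
        push_cast; ring
      rw [e2]
      have := hk ((m + 1) * N) (Nat.mul_le_mul_right _ hm)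
      linarith)
    have e3 : 1 / (2 * (N : ℝ) ^ 4) = r / 2 := by rw [hr]; field_simp
    rw [e3]
    refine le_min ?_ h1
    have : r ≤ 1 := by
      rw [hr, div_le_one (by positivity)]
      exact one_le_pow₀ hN1
    linarith
  have hmid : (1 - 2 * n / (N : ℝ) ^ 2) ^ (N - 1) * Real.exp (-(2 * (N / π * lob (π / 6)))) ≤
      ∏ j ∈ range (N - 1), min 1 ‖br (rt N * w) ((m * N + j : ℕ) + 1 : ℤ)‖ := by
    have h1 : (1 - 2 * n / (N : ℝ) ^ 2) ^ (N - 1) * ∏ j ∈ range (N - 1), s N (j + 1) ≤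
        ∏ j ∈ range (N - 1), min 1 ‖br (rt N * w) ((m * N + j : ℕ) + 1 : ℤ)‖ := by
      have e0 : (1 - 2 * n / (N : ℝ) ^ 2) ^ (N - 1) =
          ∏ _j ∈ range (N - 1), (1 - 2 * n / (N : ℝ) ^ 2) := by
        rw [prod_const, card_range]
      rw [e0, ← prod_mul_distrib]
      apply Finset.prod_le_prod
      · intro j hj
        rw [mem_range] at hj
        exact mul_nonneg hδ0 (s_nonneg (by omega) hN)
      · intro j hj
        rw [mem_range] at hj
        have e1 : (((m * N + j : ℕ) : ℤ) + 1 : ℤ) = ((m * N + (j + 1) : ℕ) : ℤ) := by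
          push_cast; ring
        rw [e1]
        have hle : m * N + (j + 1) ≤ n * N := by
          have : (m + 1) * N ≤ n * N := Nat.mul_le_mul_right _ hm
          rw [add_mul, one_mul] at this
          omega
        have h2 := br_diff (N := N) hr0 h.le (m * N + (j + 1)) ((hk _ hle).trans (by linarith))
        have h3 := norm_br_rt hN m (j + 1) (by omega)
        have h4 := sin_low (N := N) (j := j + 1) (by omega) (by omega)
        have h5 : ‖br (rt N) (m * N + (j + 1) : ℕ)‖ ≤ ‖br (rt N * w) (m * N + (j + 1) : ℕ)‖ +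
            ‖br (rt N * w) (m * N + (j + 1) : ℕ) - br (rt N) (m * N + (j + 1) : ℕ)‖ := by
          have : br (rt N) (m * N + (j + 1) : ℕ) = br (rt N * w) (m * N + (j + 1) : ℕ) -
            (br (rt N * w) (m * N + (j + 1) : ℕ) - br (rt N) (m * N + (j + 1) : ℕ)) := by ring
          conv_lhs => rw [this]
          exact norm_sub_le _ _
        have h6 : 6 * ((m * N + (j + 1) : ℕ) : ℝ) * r ≤
            2 * n / (N : ℝ) ^ 2 * (2 * Real.sin (π * ((j + 1 : ℕ) : ℝ) / N)) := by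
          have := hk _ hle
          calc 6 * ((m * N + (j + 1) : ℕ) : ℝ) * r = 6 * (((m * N + (j + 1) : ℕ) : ℝ) * r) := by ring
            _ ≤ 6 * (n / (N : ℝ) ^ 3) := by gcongr
            _ ≤ 2 * n / (N : ℝ) ^ 2 * (2 * (2 / N)) := by
                rw [show 2 * n / (N : ℝ) ^ 2 * (2 * (2 / N)) = 8 * (n / (N : ℝ) ^ 3) by
                  field_simp; ring]
                have : 0 ≤ (n : ℝ) / (N : ℝ) ^ 3 := by positivity
                linarith
            _ ≤ _ := by gcongr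
        rw [h3] at h5
        have h7 : (1 - 2 * n / (N : ℝ) ^ 2) * (2 * Real.sin (π * ((j + 1 : ℕ) : ℝ) / N)) ≤
            ‖br (rt N * w) (m * N + (j + 1) : ℕ)‖ := by
          rw [sub_mul, one_mul]
          linarith
        have hs0 := s_nonneg (N := N) (k := j + 1) (by omega) hN
        refine le_min ?_ ?_
        · have : s N (j + 1) ≤ 1 := min_le_left _ _
          nlinarith
        · refine le_trans ?_ h7
          exact mul_le_mul_of_nonneg_left (min_le_right _ _) hδ0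
    refine le_trans ?_ h1
    exact mul_le_mul_of_nonneg_left (low_block hN) (pow_nonneg hδ0 _)
  have hsplit : N = (N - 1) + 1 := by omega
  have : ∏ j ∈ range N, min 1 ‖br (rt N * w) ((m * N + j : ℕ) + 1 : ℤ)‖ =
      (∏ j ∈ range (N - 1), min 1 ‖br (rt N * w) ((m * N + j : ℕ) + 1 : ℤ)‖) *
        min 1 ‖br (rt N * w) ((m * N + (N - 1) : ℕ) + 1 : ℤ)‖ := by
    conv_lhs => rw [show range N = range ((N - 1) + 1) by rw [← hsplit]]
    rw [prod_range_succ]
  rw [this]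
  refine mul_le_mul hmid hlast (by positivity) ?_
  exact prod_nonneg fun j _ => le_min (by norm_num) (norm_nonneg _)

lemma all_blocks {N : ℕ} (hN : 0 < N) {n : ℕ} {w : ℂ}
    (h : ‖w - 1‖ = 1 / (N : ℝ) ^ 4) (hn : (8 * n : ℕ) ≤ N) (k : ℕ) (hk : k ≤ n) :
    ((1 - 2 * n / (N : ℝ) ^ 2) ^ (N - 1) * Real.exp (-(2 * (N / π * lob (π / 6)))) *
      (1 / (2 * (N : ℝ) ^ 4))) ^ k ≤
      ∏ j ∈ range (k * N), min 1 ‖br (rt N * w) ((j : ℤ) + 1)‖ := by
  have hN' : (0 : ℝ) < N := by exact_mod_cast hN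
  have hN1 : (1 : ℝ) ≤ N := by exact_mod_cast hN
  have hn' : 8 * (n : ℝ) ≤ N := by exact_mod_cast hn
  have hδ0 : 0 ≤ 1 - 2 * n / (N : ℝ) ^ 2 := by
    rw [sub_nonneg, div_le_one (by positivity)]
    nlinarith
  induction k with
  | zero => simp
  | succ k ih =>
    rw [pow_succ, add_mul, one_mul, prod_range_add]
    have h1 := block hN (n := n) (m := k) (by omega) h hn
    refine mul_le_mul (ih (by omega)) ?_ ?_ ?_
    · refine h1.trans (le_of_eq ?_)
      apply prod_congr rfl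
      intro j _
      norm_cast
    · positivity
    · exact prod_nonneg fun j _ => le_min (by norm_num) (norm_nonneg _)

lemma poly_exp (n : ℕ) {ε : ℝ} (hε : 0 < ε) :
    ∀ᶠ N : ℕ in atTop, Real.exp (-(N * ε)) ≤ (1 / (4 * (N : ℝ) ^ 4)) ^ n := by
  have h1 := Real.tendsto_pow_mul_exp_neg_atTop_nhds_zero (4 * n)
  have h2 : Tendsto (fun N : ℕ => (N : ℝ) * ε) atTop atTop :=
    tendsto_natCast_atTop_atTop.atTop_mul_const hε
  have h3 := (h1.comp h2).eventually_lt_const (u := ε ^ (4 * n) / 4 ^ n) (by positivity)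
  filter_upwards [h3, eventually_gt_atTop 0] with N hN h0
  have hN' : (0 : ℝ) < N := by exact_mod_cast h0
  simp only [Function.comp] at hN
  rw [one_div, inv_pow, mul_pow, ← pow_mul, ← one_div, le_div_iff₀ (by positivity)]
  rw [lt_div_iff₀ (by positivity), mul_pow] at hN
  have h4 : (0 : ℝ) < ε ^ (4 * n) := by positivity
  have h5 : ε ^ (4 * n) * (Real.exp (-(N * ε)) * (4 ^ n * (N : ℝ) ^ (4 * n))) ≤ ε ^ (4 * n) * 1 := by
    rw [mul_one]
    refine le_trans (le_of_eq ?_) hN.le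
    ring
  exact le_of_mul_le_mul_left h5 h4

theorem t : S_LOW := by
  intro n ε hε
  filter_upwards [poly_exp n hε, eventually_ge_atTop (8 * n), eventually_gt_atTop 0] with N h1 h2 h0 v hv
  have hN' : (0 : ℝ) < N := by exact_mod_cast h0
  have hN1 : (1 : ℝ) ≤ N := by exact_mod_cast h0
  have hn' : 8 * (n : ℝ) ≤ N := by exact_mod_cast h2
  have hrt := rt_ne N
  have hnrt : ‖rt N‖ = 1 := by
    have := norm_rt_zpow N 1
    rwa [zpow_one] at this
  set w : ℂ := v / rt N with hw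
  have hvw : v = rt N * w := by rw [hw]; field_simp
  have hw1 : ‖w - 1‖ = 1 / (N : ℝ) ^ 4 := by
    have : w - 1 = (v - rt N) / rt N := by rw [hw]; field_simp
    rw [this, norm_div, hnrt, div_one]
    exact hv
  have h3 := all_blocks h0 (n := n) hw1 h2 n le_rfl
  rw [hvw]
  refine le_trans ?_ h3
  have hb : (1 / 2 : ℝ) ≤ (1 - 2 * n / (N : ℝ) ^ 2) ^ (N - 1) := by
    have hb1 := one_add_mul_le_pow (a := -(2 * n / (N : ℝ) ^ 2)) (by
      have : 2 * n / (N : ℝ) ^ 2 ≤ 1 := by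
        rw [div_le_one (by positivity)]
        nlinarith
      linarith) (N - 1)
    rw [← sub_eq_add_neg] at hb1
    refine le_trans ?_ hb1
    have hb2 : ((N - 1 : ℕ) : ℝ) ≤ N := by exact_mod_cast Nat.sub_le _ _
    have hb3 : ((N - 1 : ℕ) : ℝ) * (2 * n / (N : ℝ) ^ 2) ≤ N * (2 * n / (N : ℝ) ^ 2) := by gcongr
    have hb4 : N * (2 * n / (N : ℝ) ^ 2) = 2 * n / N := by field_simp
    have hb5 : 2 * (n : ℝ) / N ≤ 1 / 2 := by
      rw [div_le_div_iff₀ hN' (by norm_num)]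
      linarith
    rw [mul_neg]
    linarith
  have e1 : Real.exp (-(N * (n * (2 * lob (π / 6) / π) + ε))) =
      Real.exp (-(2 * (N / π * lob (π / 6)))) ^ n * Real.exp (-(N * ε)) := by
    rw [← Real.exp_nat_mul, ← Real.exp_add]
    congr 1
    ring
  have e2 : (1 - 2 * n / (N : ℝ) ^ 2) ^ (N - 1) * Real.exp (-(2 * (N / π * lob (π / 6)))) *
      (1 / (2 * (N : ℝ) ^ 4)) = Real.exp (-(2 * (N / π * lob (π / 6)))) *
      ((1 - 2 * n / (N : ℝ) ^ 2) ^ (N - 1) * (1 / (2 * (N : ℝ) ^ 4))) := by ring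
  rw [e1, e2, mul_pow]
  apply mul_le_mul_of_nonneg_left _ (by positivity)
  refine h1.trans ?_
  apply pow_le_pow_left₀ (by positivity)
  have e3 : 1 / (4 * (N : ℝ) ^ 4) = 1 / 2 * (1 / (2 * (N : ℝ) ^ 4)) := by
    field_simp
    norm_num
  rw [e3]
  gcongr

end Pool.Agent.K7.H47.FTJL
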