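import Pool.Agent.K7.H22.EV.Stm

/-!
# Project EV: job M2 (the double count)
-/

set_option autoImplicit false

open Finset

namespace Pool.Agent.K7.H47.EV

open Pool.Agent.K7.H22.EV

theorem mem_ag {ι S W : Type} [Fintype ι] (f : W → ι → S) (u w : W) (i : ι) :
    i ∈ ag f u w ↔ f u i = f w i := by
  simp [ag]

theorem ag_le {ι S W : Type} [Fintype ι] [Fintype S] [Fintype W] (f : W → ι → S) (hT : T 4 f)
    (x y : W) (hxy : x ≠ y) : (ag f x y).card ≤ 3 := by
  by_contra h
  push Not at h
  obtain ⟨A, hA, hAc⟩ := exists_subset_card_eq (show 4 ≤ (ag f x y).card from h)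
  obtain ⟨z, -, hz⟩ := hT A hAc (f x)
  have h1 : x = z := hz x fun i _ => rfl
  have h2 : y = z := hz y fun i hi => ((mem_ag f x y i).1 (hA hi)).symm
  exact hxy (h1.trans h2.symm)

theorem choose_two (k : ℕ) : (2 : ℤ) * (k.choose 2 : ℕ) = k * (k - 1) := by
  induction k with
  | zero => simp
  | succ k ih =>
    rw [Nat.choose_succ_succ' k 1, Nat.choose_one_right]
    push_cast
    linarith

/-- every test object is passed by exactly one word -/
theorem double {α β : Type} [Fintype α] (t : Finset β) (r : α → β → Prop)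
    [∀ x, DecidablePred (r x)] (h : ∀ q ∈ t, ∃! x, r x q) :
    ∑ x : α, (t.filter (r x)).card = t.card := by
  have h1 := sum_card_bipartiteAbove_eq_sum_card_bipartiteBelow (s := (univ : Finset α)) (t := t) r
  simp only [bipartiteAbove, bipartiteBelow] at h1
  rw [card_eq_sum_ones t]
  convert h1 using 1
  refine sum_congr rfl fun q hq => ?_
  obtain ⟨x, hx, hu⟩ := h q hq
  symm
  rw [card_eq_one]
  refine ⟨x, ?_⟩
  ext y
  simp only [mem_filter, mem_univ, true_and, mem_singleton]
  exact ⟨fun hy => hu y hy, fun hy => hy ▸ hx⟩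

theorem m2 (hM1 : StM1) : StM2 := by
  intro ι S W _ _ _ f hT hcard hS u w huw p hp
  classical
  set O : Finset ι := univ \ ag f u w with hO
  have hmO : ∀ i, i ∈ O ↔ f u i ≠ f w i := by
    intro i
    rw [hO, mem_sdiff, mem_ag]
    simp
  have hOc : O.card + (ag f u w).card = Fintype.card S + 3 := by
    rw [← hcard, hO, card_sdiff_add_card_eq_card (subset_univ _), card_univ]
  have hpO : p = (O.card : ℤ) := by
    have : ((O.card + (ag f u w).card : ℕ) : ℤ) = ((Fintype.card S + 3 : ℕ) : ℤ) := by rw [hOc]
    push_cast at this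
    linarith
  have hle := ag_le f hT
  have hne : ∀ x y, x ≠ y → (ag f x y).card ≠ 2 := hM1 ι S W f hT hcard hS
  have hO2 : 2 ≤ O.card := by
    have := hle u w huw
    omega
  set U : W → Finset ι := fun x => O ∩ ag f x u with hU
  set Y : W → Finset ι := fun x => O ∩ ag f x w with hY
  set A : W → Finset ι := fun x => ag f u w ∩ ag f x u with hA
  have mU : ∀ x i, i ∈ U x ↔ f u i ≠ f w i ∧ f x i = f u i := by
    intro x i; simp only [hU, mem_inter, hmO, mem_ag]
  have mY : ∀ x i, i ∈ Y x ↔ f u i ≠ f w i ∧ f x i = f w i := by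
    intro x i; simp only [hY, mem_inter, hmO, mem_ag]
  have mA : ∀ x i, i ∈ A x ↔ f u i = f w i ∧ f x i = f u i := by
    intro x i; simp only [hA, mem_inter, mem_ag]
  have cu : ∀ x, (ag f x u).card = (U x).card + (A x).card := by
    intro x
    rw [← card_union_of_disjoint]
    · congr 1
      ext i
      rw [mem_union, mU, mA, mem_ag]
      tauto
    · rw [Finset.disjoint_left]
      intro i h1 h2
      rw [mU] at h1
      rw [mA] at h2
      exact h1.1 h2.1
  have cw : ∀ x, (ag f x w).card = (Y x).card + (A x).card := by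
    intro x
    rw [← card_union_of_disjoint]
    · congr 1
      ext i
      rw [mem_union, mY, mA, mem_ag]
      constructor
      · intro h
        by_cases h1 : f u i = f w i
        · exact Or.inr ⟨h1, h.trans h1.symm⟩
        · exact Or.inl ⟨h1, h⟩
      · rintro (h | h)
        · exact h.2
        · exact h.2.trans h.1
    · rw [Finset.disjoint_left]
      intro i h1 h2
      rw [mY] at h1
      rw [mA] at h2
      exact h1.1 h2.1
  have hxu : ∀ x, 1 ≤ (Y x).card → x ≠ u := by
    rintro x hx rfl
    obtain ⟨i, hi⟩ := card_pos.1 hx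
    rw [mY] at hi
    exact hi.1 hi.2
  have hxw : ∀ x, 1 ≤ (U x).card → x ≠ w := by
    rintro x hx rfl
    obtain ⟨i, hi⟩ := card_pos.1 hx
    rw [mU] at hi
    exact hi.1 hi.2.symm
  -- the first count
  have count1 : ∑ x : W, ((U x).card.choose 2 * (Y x).card.choose 2) =
      O.card.choose 2 * (O.card - 2).choose 2 := by
    set t : Finset (Σ _ : Finset ι, Finset ι) :=
      (powersetCard 2 O).sigma (fun B => powersetCard 2 (O \ B)) with ht
    have h1 := double (α := W) t (fun x q => q.1 ⊆ ag f x u ∧ q.2 ⊆ ag f x w) (by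
      rintro ⟨B, C⟩ hq
      rw [ht, mem_sigma, mem_powersetCard, mem_powersetCard] at hq
      obtain ⟨⟨hB, hBc⟩, hC, hCc⟩ := hq
      simp only at hB hBc hC hCc ⊢
      have hdisj : Disjoint B C := by
        rw [Finset.disjoint_left]
        intro i h1 h2
        exact (mem_sdiff.1 (hC h2)).2 h1
      obtain ⟨x, hx, hu⟩ := hT (B ∪ C) (by rw [card_union_of_disjoint hdisj, hBc, hCc])
        (fun i => if i ∈ B then f u i else f w i)
      have key : ∀ y, (B ⊆ ag f y u ∧ C ⊆ ag f y w) ↔
          ∀ i ∈ B ∪ C, f y i = if i ∈ B then f u i else f w i := by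
        intro y
        constructor
        · rintro ⟨h1, h2⟩ i hi
          by_cases hiB : i ∈ B
          · rw [if_pos hiB]; exact (mem_ag f y u i).1 (h1 hiB)
          · rw [if_neg hiB]
            rcases mem_union.1 hi with h | h
            · exact absurd h hiB
            · exact (mem_ag f y w i).1 (h2 h)
        · intro h
          refine ⟨fun i hi => ?_, fun i hi => ?_⟩
          · have := h i (mem_union_left _ hi)
            rw [if_pos hi] at this
            exact (mem_ag f y u i).2 this
          · have := h i (mem_union_right _ hi)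
            rw [if_neg (fun hB' => Finset.disjoint_left.1 hdisj hB' hi)] at this
            exact (mem_ag f y w i).2 this
      exact ⟨x, (key x).2 hx, fun y hy => hu y ((key y).1 hy)⟩)
    have h2 : t.card = O.card.choose 2 * (O.card - 2).choose 2 := by
      rw [ht, card_sigma]
      rw [sum_congr rfl (g := fun _ => (O.card - 2).choose 2), sum_const, card_powersetCard,
        smul_eq_mul]
      intro B hB
      rw [mem_powersetCard] at hB
      rw [card_powersetCard, card_sdiff_of_subset hB.1, hB.2]
    rw [← h2, ← h1]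
    refine sum_congr rfl fun x _ => ?_
    have h3 : t.filter (fun q => q.1 ⊆ ag f x u ∧ q.2 ⊆ ag f x w) =
        (powersetCard 2 (U x)).sigma (fun _ => powersetCard 2 (Y x)) := by
      ext ⟨B, C⟩
      simp only [mem_filter, ht, mem_sigma, mem_powersetCard]
      constructor
      · rintro ⟨⟨⟨hB, hBc⟩, hC, hCc⟩, h4, h5⟩
        refine ⟨⟨subset_inter hB h4, hBc⟩, subset_inter (hC.trans sdiff_subset) h5, hCc⟩
      · rintro ⟨⟨hB, hBc⟩, hC, hCc⟩
        refine ⟨⟨⟨hB.trans inter_subset_left, hBc⟩, ?_, hCc⟩, hB.trans inter_subset_right,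
          hC.trans inter_subset_right⟩
        intro i hi
        rw [mem_sdiff]
        refine ⟨inter_subset_left (hC hi), fun hiB => ?_⟩
        have g1 := (mU x i).1 (hB hiB)
        have g2 := (mY x i).1 (hC hi)
        exact g1.1 (g1.2.symm.trans g2.2)
    rw [h3, card_sigma, sum_const, card_powersetCard, card_powersetCard, smul_eq_mul]
  -- the second count
  have count2 : ∑ x : W, ((A x).card * ((U x).card.choose 2 * (Y x).card)) =
      (ag f u w).card * (O.card.choose 2 * (O.card - 2)) := by
    set t : Finset (Σ _ : ι, Σ _ : Finset ι, ι) :=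
      (ag f u w).sigma (fun _ => (powersetCard 2 O).sigma (fun B => O \ B)) with ht
    have h1 := double (α := W) t
      (fun x q => f x q.1 = f u q.1 ∧ q.2.1 ⊆ ag f x u ∧ q.2.2 ∈ ag f x w) (by
      rintro ⟨a, B, j⟩ hq
      rw [ht, mem_sigma, mem_sigma, mem_powersetCard, mem_sdiff] at hq
      obtain ⟨ha, ⟨hB, hBc⟩, hj, hjB⟩ := hq
      simp only at ha hB hBc hj hjB ⊢
      have haO : a ∉ O := by rw [hmO]; intro h; exact h ((mem_ag f u w a).1 ha)
      have haB : a ∉ B := fun h => haO (hB h)
      have haj : a ≠ j := by rintro rfl; exact haO hj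
      obtain ⟨x, hx, hu⟩ := hT (insert a (insert j B)) (by
        rw [card_insert_of_notMem (by simp [haj, haB]), card_insert_of_notMem hjB, hBc])
        (fun i => if i = j then f w i else f u i)
      have key : ∀ y, (f y a = f u a ∧ B ⊆ ag f y u ∧ j ∈ ag f y w) ↔
          ∀ i ∈ insert a (insert j B), f y i = if i = j then f w i else f u i := by
        intro y
        constructor
        · rintro ⟨h1, h2, h3⟩ i hi
          rw [mem_insert, mem_insert] at hi
          by_cases hij : i = j
          · rw [if_pos hij, hij]; exact (mem_ag f y w j).1 h3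
          · rw [if_neg hij]
            rcases hi with h | h | h
            · rw [h]; exact h1
            · exact absurd h hij
            · exact (mem_ag f y u i).1 (h2 h)
        · intro h
          refine ⟨?_, fun i hi => ?_, ?_⟩
          · have := h a (mem_insert_self _ _)
            rwa [if_neg haj] at this
          · have := h i (by simp [hi])
            rw [if_neg (by rintro rfl; exact hjB hi)] at this
            exact (mem_ag f y u i).2 this
          · have := h j (by simp)
            rw [if_pos rfl] at this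
            exact (mem_ag f y w j).2 this
      exact ⟨x, (key x).2 hx, fun y hy => hu y ((key y).1 hy)⟩)
    have h2 : t.card = (ag f u w).card * (O.card.choose 2 * (O.card - 2)) := by
      rw [ht, card_sigma, sum_const, smul_eq_mul, card_sigma]
      congr 1
      rw [sum_congr rfl (g := fun _ => O.card - 2), sum_const, card_powersetCard, smul_eq_mul]
      intro B hB
      rw [mem_powersetCard] at hB
      rw [card_sdiff_of_subset hB.1, hB.2]
    rw [← h2, ← h1]
    refine sum_congr rfl fun x _ => ?_
    have h3 : t.filter (fun q => f x q.1 = f u q.1 ∧ q.2.1 ⊆ ag f x u ∧ q.2.2 ∈ ag f x w) =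
        (A x).sigma (fun _ => (powersetCard 2 (U x)).sigma (fun _ => Y x)) := by
      ext ⟨a, B, j⟩
      simp only [mem_filter, ht, mem_sigma, mem_powersetCard]
      constructor
      · rintro ⟨⟨ha, ⟨hB, hBc⟩, hj⟩, h4, h5, h6⟩
        refine ⟨mem_inter.2 ⟨ha, (mem_ag f x u a).2 h4⟩, ⟨subset_inter hB h5, hBc⟩,
          mem_inter.2 ⟨(mem_sdiff.1 hj).1, h6⟩⟩
      · rintro ⟨ha, ⟨hB, hBc⟩, hj⟩
        refine ⟨⟨(mem_inter.1 ha).1, ⟨hB.trans inter_subset_left, hBc⟩, ?_⟩,
          (mem_ag f x u a).1 (mem_inter.1 ha).2, hB.trans inter_subset_right,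
          (mem_inter.1 hj).2⟩
        rw [mem_sdiff]
        refine ⟨(mem_inter.1 hj).1, fun hjB => ?_⟩
        have g1 := (mU x j).1 (hB hjB)
        have g2 := (mY x j).1 hj
        exact g1.1 (g1.2.symm.trans g2.2)
    rw [h3, card_sigma, sum_const, card_sigma, sum_const, card_powersetCard, smul_eq_mul,
      smul_eq_mul]
  -- the terms
  set P0 : W → Prop := fun x => (A x).card = 0 ∧ (U x).card = 3 ∧ (Y x).card = 3 with hP0
  set P1 : W → Prop := fun x => (A x).card = 1 ∧ (U x).card = 2 ∧ (Y x).card = 2 with hP1
  have term1 : ∀ x, (U x).card.choose 2 * (Y x).card.choose 2 =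
      9 * (if P0 x then 1 else 0) + (if P1 x then 1 else 0) := by
    intro x
    by_cases h2U : 2 ≤ (U x).card
    · by_cases h2Y : 2 ≤ (Y x).card
      · have g1 := hle x u (hxu x (by omega))
        have g2 := hle x w (hxw x (by omega))
        have g3 := hne x u (hxu x (by omega))
        have g4 := hne x w (hxw x (by omega))
        rw [cu] at g1 g3
        rw [cw] at g2 g4
        have : P0 x ∨ P1 x := by
          simp only [hP0, hP1]
          omega
        rcases this with h | h
        · have hn : ¬ P1 x := by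
            intro h'
            have e1 := h.1
            have e2 := h'.1
            omega
          rw [if_pos h, if_neg hn, h.2.1, h.2.2]
          decide
        · have hn : ¬ P0 x := by
            intro h'
            have e1 := h.1
            have e2 := h'.1
            omega
          rw [if_pos h, if_neg hn, h.2.1, h.2.2]
          decide
      · have hn0 : ¬ P0 x := fun h => by have := h.2.2; omega
        have hn1 : ¬ P1 x := fun h => by have := h.2.2; omega
        rw [if_neg hn0, if_neg hn1, Nat.choose_eq_zero_of_lt (by omega : (Y x).card < 2)]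
        simp
    · have hn0 : ¬ P0 x := fun h => by have := h.2.1; omega
      have hn1 : ¬ P1 x := fun h => by have := h.2.1; omega
      rw [if_neg hn0, if_neg hn1, Nat.choose_eq_zero_of_lt (by omega : (U x).card < 2)]
      simp
  have term2 : ∀ x, (A x).card * ((U x).card.choose 2 * (Y x).card) =
      2 * (if P1 x then 1 else 0) := by
    intro x
    by_cases h0 : 1 ≤ (A x).card ∧ 2 ≤ (U x).card ∧ 1 ≤ (Y x).card
    · obtain ⟨h1, h2, h3⟩ := h0
      have g1 := hle x u (hxu x (by omega))
      have g2 := hle x w (hxw x (by omega))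
      have g3 := hne x u (hxu x (by omega))
      have g4 := hne x w (hxw x (by omega))
      rw [cu] at g1 g3
      rw [cw] at g2 g4
      have h : P1 x := by
        simp only [hP1]
        omega
      rw [if_pos h, h.1, h.2.1, h.2.2]
      decide
    · have hn1 : ¬ P1 x := fun h => h0 ⟨by rw [h.1], by rw [h.2.1], by rw [h.2.2]; norm_num⟩
      rw [if_neg hn1]
      have : (A x).card = 0 ∨ (U x).card < 2 ∨ (Y x).card = 0 := by omega
      rcases this with h | h | h
      · rw [h]; simp
      · rw [Nat.choose_eq_zero_of_lt h]; simp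
      · rw [h]; simp
  set N0 : ℕ := ∑ x : W, (if P0 x then 1 else 0) with hN0
  set N1 : ℕ := ∑ x : W, (if P1 x then 1 else 0) with hN1
  have e1 : 9 * N0 + N1 = O.card.choose 2 * (O.card - 2).choose 2 := by
    rw [← count1, hN0, hN1, mul_sum, ← sum_add_distrib]
    exact sum_congr rfl fun x _ => (term1 x).symm
  have e2 : 2 * N1 = (ag f u w).card * (O.card.choose 2 * (O.card - 2)) := by
    rw [← count2, hN1, mul_sum]
    exact sum_congr rfl fun x _ => (term2 x).symm
  refine ⟨(N0 : ℤ), ?_⟩
  have c1 := choose_two O.card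
  have c2 := choose_two (O.card - 2)
  have e1' : (9 : ℤ) * N0 + N1 = (O.card.choose 2 : ℕ) * ((O.card - 2).choose 2 : ℕ) := by
    exact_mod_cast e1
  have e2' : (2 : ℤ) * N1 = (ag f u w).card * ((O.card.choose 2 : ℕ) * ((O.card - 2 : ℕ) : ℤ)) := by
    exact_mod_cast e2
  have e3 : ((O.card - 2 : ℕ) : ℤ) = p - 2 := by
    rw [hpO]; push_cast [hO2]; ring
  rw [e3] at c2 e2'
  rw [← hpO] at c1
  have e4 : (36 : ℤ) * N0 = 4 * ((O.card.choose 2 : ℕ) * ((O.card - 2).choose 2 : ℕ)) - 4 * N1 := by
    linarith
  have e5 : (4 : ℤ) * ((O.card.choose 2 : ℕ) * ((O.card - 2).choose 2 : ℕ)) =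
      p * (p - 1) * ((p - 2) * (p - 2 - 1)) := by
    rw [← c1, ← c2]; ring
  have e6 : (4 : ℤ) * N1 = (ag f u w).card * ((p * (p - 1)) * (p - 2)) := by
    have : (4 : ℤ) * N1 = 2 * (2 * N1) := by ring
    rw [this, e2', ← c1]; ring
  rw [e4, e5, e6]
  ring

end Pool.Agent.K7.H47.EV
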