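import Pool.Agent.K7.H47.EV_M2

/-!
# Project EV: job M4
-/

set_option autoImplicit false

open Finset

namespace Pool.Agent.K7.H47.EV

open Pool.Agent.K7.H22.EV

theorem m4 (hM1 : StM1) (hM3 : StM3) : StM4 := by
  intro ι S W _ _ _ f hT hcard hS
  classical
  obtain ⟨-, ⟨u, w, huw, h1⟩, -⟩ := hM3 ι S W f hT hcard hS
  obtain ⟨j0, hj0⟩ := card_eq_one.1 h1
  have hle := ag_le f hT
  have hne : ∀ x y, x ≠ y → (ag f x y).card ≠ 2 := hM1 ι S W f hT hcard (by omega)
  have huj : f u j0 = f w j0 := by
    rw [← mem_ag, hj0]; exact mem_singleton_self _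
  have hdiff : ∀ i, i ≠ j0 → f u i ≠ f w i := by
    intro i hi h
    rw [← mem_ag, hj0, mem_singleton] at h
    exact hi h
  obtain ⟨j1, hj1⟩ : ∃ j1 : ι, j1 ≠ j0 := by
    have : 1 < Fintype.card ι := by omega
    have : Nontrivial ι := Fintype.one_lt_card_iff_nontrivial.1 this
    exact exists_ne j0
  obtain ⟨b, hb⟩ : ∃ b : S, b ∉ ({f u j1, f w j1} : Finset S) := by
    by_contra h
    push Not at h
    have h2 : (univ : Finset S) ⊆ {f u j1, f w j1} := fun s _ => h s
    have h3 := card_le_card h2
    rw [card_univ] at h3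
    have h4 : ({f u j1, f w j1} : Finset S).card ≤ 2 := card_le_two
    omega
  have hbu : b ≠ f u j1 := fun h => hb (by simp [h])
  have hbw : b ≠ f w j1 := fun h => hb (by simp [h])
  set R : Finset ι := univ \ {j0, j1} with hR
  have hmR : ∀ i, i ∈ R ↔ i ≠ j0 ∧ i ≠ j1 := by
    intro i; rw [hR]; simp
  have hRc : R.card = Fintype.card S + 1 := by
    have h2 : ({j0, j1} : Finset ι).card = 2 := card_pair hj1.symm
    rw [hR, card_sdiff_of_subset (subset_univ _), h2, card_univ, hcard]
    omega
  have hd := double (α := W) R.offDiag (fun x q => (f x j0 = f u j0 ∧ f x j1 = b) ∧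
      q.1 ∈ ag f x u ∧ q.2 ∈ ag f x w) (by
    rintro ⟨i, k⟩ hq
    rw [mem_offDiag, hmR, hmR] at hq
    obtain ⟨⟨hi0, hi1⟩, ⟨hk0, hk1⟩, hik⟩ := hq
    simp only at hi0 hi1 hk0 hk1 hik ⊢
    obtain ⟨x, hx, hu⟩ := hT {j0, j1, i, k} (by
      rw [card_insert_of_notMem, card_insert_of_notMem, card_insert_of_notMem, card_singleton]
      · simp [hik]
      · simp [hi1.symm, hk1.symm]
      · simp [hj1.symm, hi0.symm, hk0.symm])
      (fun z => if z = j1 then b else if z = k then f w z else f u z)
    have key : ∀ y, ((f y j0 = f u j0 ∧ f y j1 = b) ∧ i ∈ ag f y u ∧ k ∈ ag f y w) ↔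
        ∀ z ∈ ({j0, j1, i, k} : Finset ι),
          f y z = if z = j1 then b else if z = k then f w z else f u z := by
      intro y
      rw [mem_ag, mem_ag]
      constructor
      · rintro ⟨⟨g1, g2⟩, g3, g4⟩ z hz
        simp only [mem_insert, mem_singleton] at hz
        rcases hz with rfl | rfl | rfl | rfl
        · rw [if_neg hj1.symm, if_neg hk0.symm]; exact g1
        · rw [if_pos rfl]; exact g2
        · rw [if_neg hi1, if_neg hik]; exact g3
        · rw [if_neg hk1, if_pos rfl]; exact g4
      · intro g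
        refine ⟨⟨?_, ?_⟩, ?_, ?_⟩
        · have := g j0 (by simp)
          rwa [if_neg hj1.symm, if_neg hk0.symm] at this
        · have := g j1 (by simp)
          rwa [if_pos rfl] at this
        · have := g i (by simp)
          rwa [if_neg hi1, if_neg hik] at this
        · have := g k (by simp)
          rwa [if_neg hk1, if_pos rfl] at this
    exact ⟨x, (key x).2 hx, fun y hy => hu y ((key y).1 hy)⟩)
  have hcount : R.offDiag.card = Fintype.card S * (Fintype.card S + 1) := by
    rw [offDiag_card, hRc]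
    have : (Fintype.card S + 1) * (Fintype.card S + 1) =
        Fintype.card S * (Fintype.card S + 1) + (Fintype.card S + 1) := by ring
    rw [this, Nat.add_sub_cancel]
  rw [← hcount, ← hd]
  apply dvd_sum
  intro x _
  by_cases hx : f x j0 = f u j0 ∧ f x j1 = b
  · have e1 : R.offDiag.filter (fun q => (f x j0 = f u j0 ∧ f x j1 = b) ∧
        q.1 ∈ ag f x u ∧ q.2 ∈ ag f x w) = (R ∩ ag f x u) ×ˢ (R ∩ ag f x w) := by
      ext ⟨i, k⟩
      simp only [mem_filter, mem_offDiag, mem_product, mem_inter]
      constructor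
      · rintro ⟨⟨g1, g2, -⟩, -, g3, g4⟩
        exact ⟨⟨g1, g3⟩, g2, g4⟩
      · rintro ⟨⟨g1, g3⟩, g2, g4⟩
        refine ⟨⟨g1, g2, ?_⟩, hx, g3, g4⟩
        rintro rfl
        rw [mem_ag] at g3 g4
        exact hdiff i ((hmR i).1 g1).1 (g3.symm.trans g4)
    rw [e1, card_product]
    have cu : (ag f x u).card = (R ∩ ag f x u).card + 1 := by
      rw [← card_insert_of_notMem (show j0 ∉ R ∩ ag f x u by
        rw [mem_inter, hmR]; exact fun h => h.1.1 rfl)]
      congr 1
      ext i
      rw [mem_insert, mem_inter, hmR, mem_ag]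
      constructor
      · intro h
        by_cases hi : i = j0
        · exact Or.inl hi
        · refine Or.inr ⟨⟨hi, ?_⟩, h⟩
          rintro rfl
          rw [hx.2] at h
          exact hbu h
      · rintro (rfl | h)
        · exact hx.1
        · exact h.2
    have cw : (ag f x w).card = (R ∩ ag f x w).card + 1 := by
      rw [← card_insert_of_notMem (show j0 ∉ R ∩ ag f x w by
        rw [mem_inter, hmR]; exact fun h => h.1.1 rfl)]
      congr 1
      ext i
      rw [mem_insert, mem_inter, hmR, mem_ag]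
      constructor
      · intro h
        by_cases hi : i = j0
        · exact Or.inl hi
        · refine Or.inr ⟨⟨hi, ?_⟩, h⟩
          rintro rfl
          rw [hx.2] at h
          exact hbw h
      · rintro (rfl | h)
        · exact hx.1.trans huj
        · exact h.2
    have hxu : x ≠ u := by rintro rfl; exact hbu hx.2.symm
    have hxw : x ≠ w := by rintro rfl; exact hbw hx.2.symm
    have g1 := hle x u hxu
    have g2 := hne x u hxu
    have g3 := hle x w hxw
    have g4 := hne x w hxw
    rw [cu] at g1 g2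
    rw [cw] at g3 g4
    have g5 : (R ∩ ag f x u).card = 0 ∨ (R ∩ ag f x u).card = 2 := by omega
    have g6 : (R ∩ ag f x w).card = 0 ∨ (R ∩ ag f x w).card = 2 := by omega
    rcases g5 with g5 | g5 <;> rcases g6 with g6 | g6 <;> rw [g5, g6] <;> decide
  · have e1 : R.offDiag.filter (fun q => (f x j0 = f u j0 ∧ f x j1 = b) ∧
        q.1 ∈ ag f x u ∧ q.2 ∈ ag f x w) = ∅ := by
      apply filter_eq_empty_iff.2
      rintro q - ⟨h, -⟩
      exact hx h
    rw [e1]
    simp

end Pool.Agent.K7.H47.EV
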