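import Pool.Agent.Helper668.QG
import Pool.Agent.Results.MP_4e44b6_al.TraceZeroImages
import Pool.Agent.K7.H97.MI.Defs

/-!
Job NECA of project MI: for a noncommutative polynomial with a nonscalar value on `M_2(ℝ)` the sets
of the nonzero ratios of the values with positive (negative) trace are finite unions of
nondegenerate intervals.
-/

set_option autoImplicit false
set_option linter.unusedVariables false

open Polynomial

namespace Pool.Agent.K7.H47.MI_NECA

open Pool.Agent.K7.H97.MI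
open Pool.Agent.Helper668 Pool.Agent.Helper668.QI

/-- real polynomial coordinates of the values of `p` -/
theorem exists_real_polys {m : ℕ} (p : FreeAlgebra ℝ (Fin m)) :
    ∃ (N : ℕ) (P : Matrix (Fin 2) (Fin 2) (MvPolynomial (Fin N) ℝ)),
      (∀ u : Fin N → ℝ, ∃ a : Fin m → M2,
        FreeAlgebra.lift ℝ a p = P.map (MvPolynomial.eval u)) ∧
      (∀ a : Fin m → M2, ∃ u : Fin N → ℝ,
        FreeAlgebra.lift ℝ a p = P.map (MvPolynomial.eval u)) := by
  let e : Fin m × Fin 4 ≃ Fin (m * 4) := finProdFinEquiv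
  let A : Fin m → Matrix (Fin 2) (Fin 2) (MvPolynomial (Fin (m * 4)) ℝ) := fun j =>
    !![MvPolynomial.X (e (j, 0)), MvPolynomial.X (e (j, 1));
      MvPolynomial.X (e (j, 2)), MvPolynomial.X (e (j, 3))]
  let B : (Fin (m * 4) → ℝ) → Fin m → M2 := fun u i =>
    !![u (e (i, 0)), u (e (i, 1)); u (e (i, 2)), u (e (i, 3))]
  have key : ∀ u : Fin (m * 4) → ℝ,
      FreeAlgebra.lift ℝ (B u) p = (FreeAlgebra.lift ℝ A p).map (MvPolynomial.eval u) := by
    intro u
    induction p using FreeAlgebra.induction with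
    | grade0 s =>
      rw [AlgHom.commutes, AlgHom.commutes]
      ext i j
      rw [Matrix.map_apply, Matrix.algebraMap_matrix_apply, Matrix.algebraMap_matrix_apply]
      split_ifs <;> simp
    | grade1 i =>
      ext a b
      fin_cases a <;> fin_cases b <;> simp [A, B]
    | mul x y hx hy => rw [map_mul, map_mul, hx, hy, Matrix.map_mul]
    | add x y hx hy =>
      rw [map_add, map_add, hx, hy]
      ext i j
      simp
  refine ⟨m * 4, FreeAlgebra.lift ℝ A p, fun u => ⟨B u, key u⟩, fun a => ?_⟩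
  let u : Fin (m * 4) → ℝ := fun k =>
    ![a (e.symm k).1 0 0, a (e.symm k).1 0 1, a (e.symm k).1 1 0, a (e.symm k).1 1 1]
      (e.symm k).2
  have hu : B u = a := by
    funext i
    ext c d
    fin_cases c <;> fin_cases d <;> simp [u, B]
  exact ⟨u, by rw [← key u, hu]⟩

/-- the ratios of two real polynomials -/
def RS {N : ℕ} (F Q : MvPolynomial (Fin N) ℝ) (s : SignType) : Set ℝ :=
  {r | r ≠ 0 ∧ ∃ u, SignType.sign (MvPolynomial.eval u F) = s ∧ MvPolynomial.eval u F ≠ 0 ∧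
    MvPolynomial.eval u Q = r * MvPolynomial.eval u F ^ 2}

theorem rat_eq {m : ℕ} (p : FreeAlgebra ℝ (Fin m)) :
    ∃ (N : ℕ) (F Q : MvPolynomial (Fin N) ℝ), (∀ s, Pool.Agent.K7.H97.MI.Rat (image p) s = RS F Q s) ∧
      (∀ a : Fin m → M2, ∃ u : Fin N → ℝ,
        ht (FreeAlgebra.lift ℝ a p) = MvPolynomial.eval u F ∧
        dd (FreeAlgebra.lift ℝ a p) = MvPolynomial.eval u Q) := by
  obtain ⟨N, P, h1, h2⟩ := exists_real_polys p
  have hF : ∀ (T : M2) (u : Fin N → ℝ), T = P.map (MvPolynomial.eval u) →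
      ht T = MvPolynomial.eval u (MvPolynomial.C (1 / 2) * (P 0 0 + P 1 1)) := by
    rintro T u rfl
    simp only [ht, Matrix.trace_fin_two, Matrix.map_apply, map_mul, map_add, MvPolynomial.eval_C]
    ring
  have hQ : ∀ (T : M2) (u : Fin N → ℝ), T = P.map (MvPolynomial.eval u) →
      dd T = MvPolynomial.eval u ((MvPolynomial.C (1 / 2) * (P 0 0 + P 1 1)) ^ 2 -
        (P 0 0 * P 1 1 - P 0 1 * P 1 0)) := by
    rintro T u rfl
    simp only [dd, Matrix.trace_fin_two, Matrix.det_fin_two, Matrix.map_apply, map_mul, map_add,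
      map_sub, map_pow, MvPolynomial.eval_C]
    ring
  refine ⟨N, MvPolynomial.C (1 / 2) * (P 0 0 + P 1 1), (MvPolynomial.C (1 / 2) *
    (P 0 0 + P 1 1)) ^ 2 - (P 0 0 * P 1 1 - P 0 1 * P 1 0), fun s => ?_, fun a => ?_⟩
  rotate_left
  · obtain ⟨u, hu⟩ := h2 a
    exact ⟨u, hF _ u hu, hQ _ u hu⟩
  · ext r
    constructor
    · rintro ⟨hr, _, ⟨a, rfl⟩, hs, h0, hd⟩
      obtain ⟨u, hu⟩ := h2 a
      refine ⟨hr, u, ?_, ?_, ?_⟩
      · rw [← hF _ u hu]; exact hs
      · rw [← hF _ u hu]; exact h0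
      · rw [← hF _ u hu, ← hQ _ u hu]; exact hd
    · rintro ⟨hr, u, hs, h0, hd⟩
      obtain ⟨a, ha⟩ := h1 u
      refine ⟨hr, _, ⟨a, rfl⟩, ?_, ?_, ?_⟩
      · rw [← hF _ u ha] at hs; exact hs
      · rw [← hF _ u ha] at h0; exact h0
      · rw [← hF _ u ha, ← hQ _ u ha] at hd; exact hd

theorem rs_semialg {N : ℕ} (F Q : MvPolynomial (Fin N) ℝ) (s : SignType) :
    ∃ E : Set ℝ[X], E.Finite ∧ ∀ c c' : ℝ,
      (∀ p ∈ E, SignType.sign (p.eval c) = SignType.sign (p.eval c')) →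
      (c ∈ RS F Q s → c' ∈ RS F Q s) := by
  let Q' : MvPolynomial (Fin N) ℝ[X] := MvPolynomial.map Polynomial.C Q
  let F' : MvPolynomial (Fin N) ℝ[X] := MvPolynomial.map Polynomial.C F
  let cc : MvPolynomial (Fin N) ℝ[X] := MvPolynomial.C Polynomial.X
  obtain ⟨E', hE', h⟩ := TS.elim N (R := ℝ[X]) (Λ := ℝ) (fun c => Polynomial.evalRingHom c)
    {F', Q' - cc * F' ^ 2} (Set.toFinite _)
  refine ⟨insert Polynomial.X E', hE'.insert _, fun c c' hcc' hc => ?_⟩
  obtain ⟨hc0, u, h1, h2, h3⟩ := hc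
  obtain ⟨v, hv⟩ := h c c' (fun r hr => hcc' r (Set.mem_insert_of_mem _ hr)) u
  have hmap : ∀ (c : ℝ) (u : Fin N → ℝ) (G : MvPolynomial (Fin N) ℝ),
      MvPolynomial.eval₂Hom (Polynomial.evalRingHom c) u (MvPolynomial.map Polynomial.C G)
        = MvPolynomial.eval u G := by
    intro c u G
    rw [MvPolynomial.coe_eval₂Hom, MvPolynomial.eval₂_map]
    have : (Polynomial.evalRingHom c).comp Polynomial.C = RingHom.id ℝ := by
      ext x; simp
    rw [this]; rfl
  have e1 := hv F' (by simp)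
  have e2 := hv (Q' - cc * F' ^ 2) (by simp)
  simp only [Q', F', cc, map_sub, map_mul, map_pow, hmap, MvPolynomial.coe_eval₂Hom,
    MvPolynomial.eval₂_C] at e1 e2
  simp only [Polynomial.coe_evalRingHom, eval_X] at e1 e2
  have e0 := hcc' Polynomial.X (Set.mem_insert _ _)
  rw [eval_X, eval_X] at e0
  refine ⟨?_, v, ?_, ?_, ?_⟩
  · rintro rfl
    rw [sign_zero] at e0
    exact hc0 (sign_eq_zero_iff.1 e0)
  · rw [← e1, h1]
  · intro h0
    rw [h0, sign_zero] at e1
    exact h2 (sign_eq_zero_iff.1 e1)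
  · rw [h3, sub_self, sign_zero] at e2
    have := sign_eq_zero_iff.1 e2.symm
    linarith

theorem line {N : ℕ} (G : MvPolynomial (Fin N) ℝ) (u0 u1 : Fin N → ℝ) :
    ∃ g : ℝ[X], ∀ t, g.eval t = MvPolynomial.eval (fun i => u0 i + t * (u1 i - u0 i)) G := by
  refine ⟨MvPolynomial.aeval (fun i => C (u0 i) + X * C (u1 i - u0 i)) G, fun t => ?_⟩
  induction G using MvPolynomial.induction_on with
  | C a => simp
  | add p q hp hq => rw [map_add, eval_add, hp, hq, map_add]
  | mul_X p i hp => rw [map_mul, eval_mul, hp, map_mul]; simp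

theorem rs_isolated {N : ℕ} (F Q : MvPolynomial (Fin N) ℝ) (s : SignType) (c0 : ℝ)
    (hc0 : c0 ∈ RS F Q s) (ε : ℝ) (hε : 0 < ε)
    (hiso : ∀ c ∈ RS F Q s, |c - c0| < ε → c = c0) (u1 : Fin N → ℝ) :
    MvPolynomial.eval u1 Q = c0 * MvPolynomial.eval u1 F ^ 2 := by
  obtain ⟨hne, u0, hs, hF0, hceq⟩ := hc0
  obtain ⟨f, hf⟩ := line F u0 u1
  obtain ⟨q, hq⟩ := line Q u0 u1
  have hq0 : q.eval 0 = MvPolynomial.eval u0 Q := by rw [hq]; simp
  have hf0 : f.eval 0 = MvPolynomial.eval u0 F := by rw [hf]; simp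
  have hf0' : f.eval 0 ≠ 0 := by rw [hf0]; exact hF0
  have hval : q.eval 0 / f.eval 0 ^ 2 = c0 := by
    rw [hq0, hf0, hceq]; field_simp
  have hcont : ContinuousAt (fun t => q.eval t / f.eval t ^ 2) 0 := by
    apply ContinuousAt.div q.continuous.continuousAt
    · exact (f.continuous.pow 2).continuousAt
    · exact pow_ne_zero 2 hf0'
  have h1 : ∀ᶠ t in nhds (0 : ℝ), |q.eval t / f.eval t ^ 2 - c0| < ε := by
    have := Metric.continuousAt_iff'.1 hcont ε hε
    simp only [Real.dist_eq, hval] at this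
    exact this
  have h1' : ∀ᶠ t in nhds (0 : ℝ), q.eval t / f.eval t ^ 2 ≠ 0 := by
    apply hcont.eventually_ne
    rw [hval]; exact hne
  have h2 : ∀ᶠ t in nhds (0 : ℝ), SignType.sign (f.eval t) = s := by
    rcases lt_or_gt_of_ne hf0' with h | h
    · have hs' : s = -1 := by rw [← hs, ← hf0, sign_neg h]
      filter_upwards [f.continuous.continuousAt.eventually (gt_mem_nhds h)] with t ht
      rw [hs', sign_neg ht]
    · have hs' : s = 1 := by rw [← hs, ← hf0, sign_pos h]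
      filter_upwards [f.continuous.continuousAt.eventually (lt_mem_nhds h)] with t ht
      rw [hs', sign_pos ht]
  have h2' : ∀ᶠ t in nhds (0 : ℝ), f.eval t ≠ 0 := f.continuous.continuousAt.eventually_ne hf0'
  have h3 : ∀ᶠ t in nhds (0 : ℝ), (q - C c0 * f ^ 2).eval t = 0 := by
    filter_upwards [h1, h1', h2, h2'] with t ht1 ht1' ht2 ht2'
    have hmem : q.eval t / f.eval t ^ 2 ∈ RS F Q s := by
      refine ⟨ht1', fun i => u0 i + t * (u1 i - u0 i), ?_, ?_, ?_⟩
      · rw [← hf]; exact ht2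
      · rw [← hf]; exact ht2'
      · rw [← hf, ← hq]; field_simp
    have h4 := hiso _ hmem ht1
    rw [div_eq_iff (pow_ne_zero 2 ht2')] at h4
    simp only [eval_sub, eval_pow, eval_mul, eval_C]
    rw [h4]; ring
  have h4 : (q - C c0 * f ^ 2) = 0 := by
    apply Polynomial.eq_zero_of_infinite_isRoot
    exact (infinite_of_mem_nhds (0 : ℝ) h3)
  have h5 := congrArg (fun P : ℝ[X] => P.eval 1) h4
  simp only [eval_sub, eval_pow, eval_mul, eval_C, eval_zero] at h5
  rw [hf, hq] at h5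
  simp only [one_mul, add_sub_cancel] at h5
  linarith

/-- **NECA.** -/
theorem fui_image {m : ℕ} (p : FreeAlgebra ℝ (Fin m))
    (hns : ∃ T ∈ image p, T ≠ ht T • (1 : M2)) (s : SignType) : IsFUI (Pool.Agent.K7.H97.MI.Rat (image p) s) := by
  obtain ⟨N, F, Q, hR, hval⟩ := rat_eq p
  rw [hR]
  obtain ⟨E, hE, hsa⟩ := rs_semialg F Q s
  refine fin_union (RS F Q s) E hE hsa ?_
  intro c hc ε hε
  by_contra hcon
  push Not at hcon
  have hid : ∀ a : Fin m → M2, dd (FreeAlgebra.lift ℝ a p)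
      = c * ht (FreeAlgebra.lift ℝ a p) ^ 2 := by
    intro a
    obtain ⟨u, e1, e2⟩ := hval a
    rw [e1, e2]
    refine rs_isolated F Q s c hc ε hε (fun c' hc' hlt => ?_) u
    by_contra hne
    exact absurd hlt (not_lt.2 (hcon c' hc' hne))
  have hnot : ¬ Pool.Agent.Results.MP_4e44b6_al.TraceZeroImages.IsScalarValued p := by
    intro h
    obtain ⟨T, hT, hTne⟩ := hns
    obtain ⟨r, hr⟩ := h T hT
    apply hTne
    rw [hr, Algebra.algebraMap_eq_smul_one]
    congr 1
    simp only [ht, Matrix.trace_fin_two, Matrix.smul_apply, Matrix.one_apply_eq, smul_eq_mul]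
    ring
  obtain ⟨⟨T1, ⟨a1, rfl⟩, h1⟩, ⟨T2, ⟨a2, rfl⟩, h2⟩⟩ :=
    Pool.Agent.Results.MP_4e44b6_al.TraceZeroImages.both_signs p hnot
  have e1 := hid a1
  have e2 := hid a2
  simp only [Pool.Agent.Results.MP_4e44b6_al.TraceZeroImages.disc] at h1 h2
  simp only [dd, ht] at e1 e2
  rcases lt_or_gt_of_ne hc.1 with h | h
  · have : c * ((FreeAlgebra.lift ℝ a1 p).trace / 2) ^ 2 ≤ 0 :=
      mul_nonpos_of_nonpos_of_nonneg h.le (sq_nonneg _)
    nlinarith
  · have : 0 ≤ c * ((FreeAlgebra.lift ℝ a2 p).trace / 2) ^ 2 :=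
      mul_nonneg h.le (sq_nonneg _)
    nlinarith

end Pool.Agent.K7.H47.MI_NECA
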