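import Pool.Agent.K7.H47.MI_NECA

/-!
Job NECB of project MI, and the assembly `nec : StNec`.
-/

set_option autoImplicit false
set_option linter.unusedVariables false

open Polynomial Filter Topology

namespace Pool.Agent.K7.H47.MI_NECB

open Pool.Agent.K7.H97.MI
open Pool.Agent.K7.H47.MI_NECA

theorem punct {g : ℝ[X]} (hg : g ≠ 0) (x : ℝ) : ∀ᶠ t in 𝓝[≠] x, g.eval t ≠ 0 := by
  have hfin : {t : ℝ | g.eval t = 0}.Finite := by
    refine ((g.roots.toFinset).finite_toSet).subset (fun s hs => ?_)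
    simp only [Finset.mem_coe, Multiset.mem_toFinset]
    exact (mem_roots hg).2 hs
  have h1 : (({t : ℝ | g.eval t = 0} \ {x})ᶜ) ∈ 𝓝 x := by
    apply IsOpen.mem_nhds (hfin.subset Set.sdiff_subset).isClosed.isOpen_compl
    simp
  filter_upwards [mem_nhdsWithin_of_mem_nhds h1, self_mem_nhdsWithin] with t h2 h3
  intro h
  exact h2 ⟨h, h3⟩

theorem sign_cases {x : ℝ} (hx : x ≠ 0) : SignType.sign x = 1 ∨ SignType.sign x = -1 := by
  rcases lt_or_gt_of_ne hx with h | h
  · right; exact sign_neg h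
  · left; exact sign_pos h

theorem mem_ratU {S : Set M2} {T : M2} (hT : T ∈ S) (h1 : ht T ≠ 0) (h2 : dd T ≠ 0) :
    dd T / ht T ^ 2 ∈ RatU S := by
  have h3 : dd T / ht T ^ 2 ≠ 0 := div_ne_zero h2 (pow_ne_zero 2 h1)
  have h4 : dd T = dd T / ht T ^ 2 * ht T ^ 2 := by field_simp
  rcases sign_cases h1 with h | h
  · exact Or.inl ⟨h3, T, hT, h, h1, h4⟩
  · exact Or.inr ⟨h3, T, hT, h, h1, h4⟩

/-- a curve of values from a given value, on which the trace and the discriminant do not vanish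
away from the initial point -/
theorem curve {m : ℕ} (p : FreeAlgebra ℝ (Fin m)) (hF : ∃ T ∈ image p, ht T ≠ 0)
    (hQ : ∃ T ∈ image p, dd T ≠ 0) {T0 : M2} (hT0 : T0 ∈ image p) :
    ∃ f q : ℝ[X], f.eval 0 = ht T0 ∧ q.eval 0 = dd T0 ∧
      (∀ t, ∃ T ∈ image p, ht T = f.eval t ∧ dd T = q.eval t) ∧
      ∀ᶠ t in 𝓝[≠] (0 : ℝ), f.eval t ≠ 0 ∧ q.eval t ≠ 0 := by
  obtain ⟨N, P, h1, h2⟩ := exists_real_polys p
  set F : MvPolynomial (Fin N) ℝ := MvPolynomial.C (1 / 2) * (P 0 0 + P 1 1) with hFdef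
  set Q : MvPolynomial (Fin N) ℝ := F ^ 2 - (P 0 0 * P 1 1 - P 0 1 * P 1 0) with hQdef
  have eF : ∀ (T : M2) (u : Fin N → ℝ), T = P.map (MvPolynomial.eval u) →
      ht T = MvPolynomial.eval u F := by
    rintro T u rfl
    simp only [hFdef, ht, Matrix.trace_fin_two, Matrix.map_apply, map_mul, map_add,
      MvPolynomial.eval_C]
    ring
  have eQ : ∀ (T : M2) (u : Fin N → ℝ), T = P.map (MvPolynomial.eval u) →
      dd T = MvPolynomial.eval u Q := by
    rintro T u rfl
    simp only [hQdef, hFdef, dd, Matrix.trace_fin_two, Matrix.det_fin_two, Matrix.map_apply,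
      map_mul, map_add, map_sub, map_pow, MvPolynomial.eval_C]
    ring
  have hval : ∀ u : Fin N → ℝ, ∃ T ∈ image p, ht T = MvPolynomial.eval u F ∧
      dd T = MvPolynomial.eval u Q := by
    intro u
    obtain ⟨a, ha⟩ := h1 u
    exact ⟨_, ⟨a, rfl⟩, eF _ u ha, eQ _ u ha⟩
  have hpt : ∀ T ∈ image p, ∃ u : Fin N → ℝ, ht T = MvPolynomial.eval u F ∧
      dd T = MvPolynomial.eval u Q := by
    rintro _ ⟨a, rfl⟩
    obtain ⟨u, hu⟩ := h2 a
    exact ⟨u, eF _ u hu, eQ _ u hu⟩
  obtain ⟨TF, hTF, hTF0⟩ := hF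
  obtain ⟨TQ, hTQ, hTQ0⟩ := hQ
  obtain ⟨uF, huF, -⟩ := hpt TF hTF
  obtain ⟨uQ, -, huQ⟩ := hpt TQ hTQ
  obtain ⟨u0, hu0F, hu0Q⟩ := hpt T0 hT0
  -- a common point
  obtain ⟨u1, hu1F, hu1Q⟩ : ∃ u1, MvPolynomial.eval u1 F ≠ 0 ∧ MvPolynomial.eval u1 Q ≠ 0 := by
    obtain ⟨f, hf⟩ := line F uF uQ
    obtain ⟨q, hq⟩ := line Q uF uQ
    have hf0 : f ≠ 0 := by
      rintro rfl
      have := hf 0
      simp only [eval_zero, zero_mul, add_zero] at this
      exact hTF0 (huF.trans this.symm)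
    have hq0 : q ≠ 0 := by
      rintro rfl
      have := hq 1
      simp only [eval_zero, one_mul, add_sub_cancel] at this
      exact hTQ0 (huQ.trans this.symm)
    obtain ⟨t, ht1, ht2⟩ := ((punct hf0 0).and (punct hq0 0)).exists
    exact ⟨_, by rw [← hf]; exact ht1, by rw [← hq]; exact ht2⟩
  obtain ⟨f, hf⟩ := line F u0 u1
  obtain ⟨q, hq⟩ := line Q u0 u1
  have hf0 : f ≠ 0 := by
    rintro rfl
    have := hf 1
    simp only [eval_zero, one_mul, add_sub_cancel] at this
    exact hu1F this.symm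
  have hq0 : q ≠ 0 := by
    rintro rfl
    have := hq 1
    simp only [eval_zero, one_mul, add_sub_cancel] at this
    exact hu1Q this.symm
  refine ⟨f, q, ?_, ?_, fun t => ?_, (punct hf0 0).and (punct hq0 0)⟩
  · rw [hf, hu0F]; simp
  · rw [hq, hu0Q]; simp
  · rw [hf, hq]; exact hval _

theorem nec : StNec := by
  intro m p hp hF hns
  have hnot : ¬ Pool.Agent.Results.MP_4e44b6_al.TraceZeroImages.IsScalarValued p := by
    intro h
    obtain ⟨T, hT, hTne⟩ := hns
    obtain ⟨r, hr⟩ := h T hT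
    apply hTne
    rw [hr, Algebra.algebraMap_eq_smul_one]
    congr 1
    simp only [ht, Matrix.trace_fin_two, Matrix.smul_apply, Matrix.one_apply_eq, smul_eq_mul]
    ring
  obtain ⟨⟨T1, hT1, hp1⟩, ⟨T2, hT2, hn2⟩⟩ :=
    Pool.Agent.Results.MP_4e44b6_al.TraceZeroImages.both_signs p hnot
  have hdd : ∀ T : M2, Pool.Agent.Results.MP_4e44b6_al.TraceZeroImages.disc T = 4 * dd T := by
    intro T
    simp only [Pool.Agent.Results.MP_4e44b6_al.TraceZeroImages.disc, dd]
    ring
  have htr : ∀ T : M2, T.trace ^ 2 = 4 * ht T ^ 2 := by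
    intro T
    simp only [ht]
    ring
  have hQ : ∃ T ∈ image p, dd T ≠ 0 := by
    refine ⟨T1, hT1, ?_⟩
    rw [hdd] at hp1
    intro h
    rw [h] at hp1
    simp at hp1
  have hqf : ∀ (f q : ℝ[X]), (∀ t, ∃ T ∈ image p, ht T = f.eval t ∧ dd T = q.eval t) → ∀ t,
      f.eval t ≠ 0 → q.eval t ≠ 0 → q.eval t / f.eval t ^ 2 ∈ RatU (image p) := by
    intro f q h t h1 h2
    obtain ⟨T, hT, e1, e2⟩ := h t
    rw [← e1, ← e2]
    exact mem_ratU hT (by rw [e1]; exact h1) (by rw [e2]; exact h2)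
  have hdbl : ∀ T ∈ image p, ht T ≠ 0 → dd T = 0 →
      (0 : ℝ) ∈ closure (Pool.Agent.K7.H97.MI.Rat (image p) (SignType.sign (ht T))) := by
    intro T hT h1 h2
    obtain ⟨f, q, e1, e2, h3, h4⟩ := curve p hF hQ hT
    have hf0 : f.eval 0 ≠ 0 := by rw [e1]; exact h1
    have hcont : ContinuousAt (fun t => q.eval t / f.eval t ^ 2) 0 := by
      apply ContinuousAt.div q.continuous.continuousAt
      · exact (f.continuous.pow 2).continuousAt
      · exact pow_ne_zero 2 hf0
    have h5 : Tendsto (fun t => q.eval t / f.eval t ^ 2) (𝓝[≠] (0 : ℝ)) (𝓝 0) := by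
      have := hcont.tendsto
      simp only [e2, h2, zero_div] at this
      exact this.mono_left nhdsWithin_le_nhds
    have h6 : ∀ᶠ t in 𝓝 (0 : ℝ), SignType.sign (f.eval t) = SignType.sign (ht T) := by
      rw [← e1]
      rcases lt_or_gt_of_ne hf0 with h | h
      · filter_upwards [f.continuous.continuousAt.eventually (gt_mem_nhds h)] with t ht
        rw [sign_neg ht, sign_neg h]
      · filter_upwards [f.continuous.continuousAt.eventually (lt_mem_nhds h)] with t ht
        rw [sign_pos ht, sign_pos h]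
    refine mem_closure_of_tendsto h5 ?_
    filter_upwards [h4, nhdsWithin_le_nhds h6] with t h7 h8
    obtain ⟨T', hT', e3, e4⟩ := h3 t
    refine ⟨div_ne_zero h7.2 (pow_ne_zero 2 h7.1), T', hT', ?_, ?_, ?_⟩
    · rw [e3]; exact h8
    · rw [e3]; exact h7.1
    · rw [e3, e4]
      have := h7.1
      field_simp
  obtain ⟨w, d, hd, hscale⟩ := Pool.Agent.W916.MI.scale (p := p) hp
  constructor
  · -- zero
    refine ⟨fun i => (0 : ℝ) ^ w i • (0 : M2), ?_⟩
    have := hscale 0 (fun _ => 0)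
    simp only at this ⊢
    rw [this, zero_pow hd.ne', zero_smul]
  · -- smul
    rintro _ ⟨a, rfl⟩ c hc
    obtain ⟨r, -, hr⟩ := Pool.Agent.W916.MI.exists_pow_eq d hd.ne' c hc
    refine ⟨fun i => r ^ w i • a i, ?_⟩
    simp only
    rw [hscale, hr]
  · -- conj
    rintro _ ⟨a, rfl⟩ g
    exact ⟨_, Pool.Agent.W916.MI.lift_conj g a p⟩
  · intro s hs
    exact fui_image p hns s
  · exact hdbl
  · -- infp
    rintro T hT h1 h2 ⟨B, hB⟩
    obtain ⟨f, q, e1, e2, h3, h4⟩ := curve p hF hQ hT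
    have h5 : ∀ᶠ t in 𝓝 (0 : ℝ), 0 < q.eval t - (|B| + 1) * f.eval t ^ 2 := by
      have hc : Continuous (fun t => q.eval t - (|B| + 1) * f.eval t ^ 2) :=
        q.continuous.sub (continuous_const.mul (f.continuous.pow 2))
      apply hc.continuousAt.eventually (lt_mem_nhds _)
      beta_reduce
      rw [e1, e2, h1]; simpa using h2
    obtain ⟨t, h6, h7⟩ := (h4.and (nhdsWithin_le_nhds h5)).exists
    have h8 := hB (hqf f q h3 t h6.1 h6.2)
    have h9 : 0 < f.eval t ^ 2 := by have := h6.1; positivity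
    rw [div_le_iff₀ h9] at h8
    have h10 : B ≤ |B| := le_abs_self B
    nlinarith
  · -- infn
    rintro T hT h1 h2 ⟨B, hB⟩
    obtain ⟨f, q, e1, e2, h3, h4⟩ := curve p hF hQ hT
    have h5 : ∀ᶠ t in 𝓝 (0 : ℝ), q.eval t + (|B| + 1) * f.eval t ^ 2 < 0 := by
      have hc : Continuous (fun t => q.eval t + (|B| + 1) * f.eval t ^ 2) :=
        q.continuous.add (continuous_const.mul (f.continuous.pow 2))
      apply hc.continuousAt.eventually (gt_mem_nhds _)
      beta_reduce
      rw [e1, e2, h1]; simpa using h2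
    obtain ⟨t, h6, h7⟩ := (h4.and (nhdsWithin_le_nhds h5)).exists
    have h8 := hB (hqf f q h3 t h6.1 h6.2)
    have h9 : 0 < f.eval t ^ 2 := by have := h6.1; positivity
    rw [le_div_iff₀ h9] at h8
    have h10 : -|B| ≤ B := neg_abs_le B
    nlinarith
  · -- pos
    obtain ⟨f, q, e1, e2, h3, h4⟩ := curve p hF hQ hT1
    have h5 : ∀ᶠ t in 𝓝 (0 : ℝ), 0 < q.eval t := by
      apply q.continuous.continuousAt.eventually (lt_mem_nhds _)
      beta_reduce
      rw [e2]; rw [hdd] at hp1; linarith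
    obtain ⟨t, h6, h7⟩ := (h4.and (nhdsWithin_le_nhds h5)).exists
    refine ⟨_, hqf f q h3 t h6.1 h6.2, ?_⟩
    have := h6.1
    positivity
  · -- neg
    obtain ⟨f, q, e1, e2, h3, h4⟩ := curve p hF hQ hT2
    have h5 : ∀ᶠ t in 𝓝 (0 : ℝ), q.eval t < 0 := by
      apply q.continuous.continuousAt.eventually (gt_mem_nhds _)
      beta_reduce
      rw [e2]; rw [hdd] at hn2; linarith
    obtain ⟨t, h6, h7⟩ := (h4.and (nhdsWithin_le_nhds h5)).exists
    refine ⟨_, hqf f q h3 t h6.1 h6.2, ?_⟩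
    have h8 : 0 < f.eval t ^ 2 := by have := h6.1; positivity
    exact div_neg_of_neg_of_pos h7 h8
  · -- conn
    set K := closure (RatU (image p)) with hK
    by_contra hcon
    rw [not_or] at hcon
    obtain ⟨hc1, hc2⟩ := hcon
    -- separating points
    obtain ⟨a, b, hab, haK, hbK, ⟨r1, hr1, hr1'⟩, ⟨r2, hr2, hr2'⟩⟩ :
        ∃ a b : ℝ, a < b ∧ a ∉ K ∧ b ∉ K ∧ (∃ r ∈ K, r ∈ Set.Ioo a b) ∧
          ∃ r ∈ K, r ∉ Set.Icc a b := by
      rw [Set.ordConnected_iff] at hc1 hc2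
      push Not at hc1 hc2
      obtain ⟨x, hx, z, hz, hxz, hxz'⟩ := hc1
      obtain ⟨x', hx', z', hz', hxz2, hxz2'⟩ := hc2
      rw [Set.not_subset] at hxz' hxz2'
      obtain ⟨y, hy, hyK⟩ := hxz'
      obtain ⟨y', hy', hyK'⟩ := hxz2'
      rw [Set.notMem_compl_iff] at hyK'
      rw [Set.mem_compl_iff] at hx' hz'
      have e1 : x < y := lt_of_le_of_ne hy.1 (fun h => hyK (h ▸ hx))
      have e2 : y < z := lt_of_le_of_ne hy.2 (fun h => hyK (h ▸ hz))
      have e3 : x' < y' := lt_of_le_of_ne hy'.1 (fun h => hx' (h ▸ hyK'))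
      have e4 : y' < z' := lt_of_le_of_ne hy'.2 (fun h => hz' (h ▸ hyK'))
      by_cases hout : ∃ r ∈ K, r ∉ Set.Icc x' z'
      · exact ⟨x', z', e3.trans e4, hx', hz', ⟨y', hyK', e3, e4⟩, hout⟩
      · push Not at hout
        have hxx := hout x hx
        have e5 : x' < x := lt_of_le_of_ne hxx.1 (fun h => hx' (h ▸ hx))
        refine ⟨x', y, e5.trans e1, hx', hyK, ⟨x, hx, e5, e1⟩, ⟨z, hz, ?_⟩⟩
        intro h
        exact absurd h.2 (not_le.2 e2)
    -- genuine ratios
    obtain ⟨s1, hs1, hs1'⟩ : ∃ s ∈ RatU (image p), s ∈ Set.Ioo a b := by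
      obtain ⟨s, hs, hs'⟩ := mem_closure_iff.1 hr1 _ isOpen_Ioo hr1'
      exact ⟨s, hs', hs⟩
    obtain ⟨s2, hs2, hs2'⟩ : ∃ s ∈ RatU (image p), s ∉ Set.Icc a b := by
      obtain ⟨s, hs, hs'⟩ := mem_closure_iff.1 hr2 _ isClosed_Icc.isOpen_compl hr2'
      exact ⟨s, hs', hs⟩
    have hball : ∀ c : ℝ, c ∉ K → ∃ δ > 0, ∀ r ∈ K, δ ≤ |r - c| := by
      intro c hc
      obtain ⟨δ, hδ, h⟩ := Metric.isOpen_iff.1 isClosed_closure.isOpen_compl c hc
      refine ⟨δ, hδ, fun r hr => ?_⟩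
      by_contra hlt
      push Not at hlt
      exact h (by rw [Metric.mem_ball, Real.dist_eq]; exact hlt) hr
    obtain ⟨δ1, hδ1, hb1⟩ := hball a haK
    obtain ⟨δ2, hδ2, hb2⟩ := hball b hbK
    have hval : ∀ T ∈ image p, ht T ≠ 0 → dd T / ht T ^ 2 ∈ K := by
      intro T hT h1
      by_cases h2 : dd T = 0
      · rw [h2, zero_div]
        have := hdbl T hT h1 h2
        refine closure_mono ?_ this
        rcases sign_cases h1 with h | h
        · rw [h]; exact Set.subset_union_left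
        · rw [h]; exact Set.subset_union_right
      · exact subset_closure (mem_ratU hT h1 h2)
    have hpoint : ∀ r ∈ RatU (image p), ∃ T ∈ image p, ht T ≠ 0 ∧ dd T = r * ht T ^ 2 := by
      rintro r (⟨-, T, hT, -, h1, h2⟩ | ⟨-, T, hT, -, h1, h2⟩)
      · exact ⟨T, hT, h1, h2⟩
      · exact ⟨T, hT, h1, h2⟩
    obtain ⟨S1, hS1, hS1', e1⟩ := hpoint s1 hs1
    obtain ⟨S2, hS2, hS2', e2⟩ := hpoint s2 hs2
    have hba : 0 < b - a := by linarith
    set η : ℝ := min (1 / 2) (min (δ1 / (2 * (b - a))) (δ2 / (2 * (b - a)))) with hη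
    have hη0 : 0 < η := by rw [hη]; positivity
    obtain ⟨T, hT, hTη⟩ :=
      Pool.Agent.Results.MP_4e44b6_al.TraceZeroImages.arcs p 1 (-a) 1 (-b)
        ⟨S2, hS2, by
          rw [hdd, htr, e2]
          have h1 : 0 < ht S2 ^ 2 := by positivity
          have h2 : 0 < (s2 - a) * (s2 - b) := by
            rw [Set.mem_Icc, not_and_or] at hs2'
            rcases hs2' with h | h
            · push Not at h
              exact mul_pos_of_neg_of_neg (by linarith) (by linarith)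
            · push Not at h
              exact mul_pos (by linarith) (by linarith)
          have h3 : 0 < 16 * (ht S2 ^ 2) ^ 2 * ((s2 - a) * (s2 - b)) := by positivity
          nlinarith⟩
        ⟨S1, hS1, by
          rw [hdd, htr, e1]
          have h1 : 0 < ht S1 ^ 2 := by positivity
          have h2 : (s1 - a) * (s1 - b) < 0 :=
            mul_neg_of_pos_of_neg (by linarith [hs1'.1]) (by linarith [hs1'.2])
          have h3 : 16 * (ht S1 ^ 2) ^ 2 * ((s1 - a) * (s1 - b)) < 0 :=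
            mul_neg_of_pos_of_neg (by positivity) h2
          nlinarith⟩ η hη0
    rw [hdd, htr] at hTη
    have hη1 : η ≤ 1 / 2 := min_le_left _ _
    have hη2 : η ≤ δ1 / (2 * (b - a)) := (min_le_right _ _).trans (min_le_left _ _)
    have hη3 : η ≤ δ2 / (2 * (b - a)) := (min_le_right _ _).trans (min_le_right _ _)
    rw [le_div_iff₀ (by positivity)] at hη2 hη3
    have hne : ht T ≠ 0 := by
      intro h
      rw [h] at hTη
      simp only [ne_eq, OfNat.ofNat_ne_zero, not_false_eq_true, zero_pow, mul_zero, add_zero,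
        one_mul, or_self] at hTη
      have := abs_nonneg (4 * dd T)
      nlinarith
    have hTK := hval T hT hne
    set r := dd T / ht T ^ 2 with hr
    have hdr : dd T = r * ht T ^ 2 := by rw [hr]; field_simp
    have hpos : 0 < 4 * ht T ^ 2 := by positivity
    have k1 : 1 * (4 * dd T) + -a * (4 * ht T ^ 2) = (r - a) * (4 * ht T ^ 2) := by
      rw [hdr]; ring
    have k2 : 1 * (4 * dd T) + -b * (4 * ht T ^ 2) = (r - b) * (4 * ht T ^ 2) := by
      rw [hdr]; ring
    rw [k1, k2, abs_mul (r - a), abs_mul (r - b), abs_of_pos hpos] at hTη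
    have l1 := hb1 r hTK
    have l2 := hb2 r hTK
    have t1 : |r - b| ≤ |r - a| + (b - a) := by
      have := abs_sub_le r a b
      rw [abs_sub_comm a b, abs_of_pos hba] at this
      exact this
    have t2 : |r - a| ≤ |r - b| + (b - a) := by
      have := abs_sub_le r b a
      rw [abs_of_pos hba] at this
      exact this
    rcases hTη with h | h
    · have h' : |r - a| < η * |r - b| := by
        have : |r - a| * (4 * ht T ^ 2) < (η * |r - b|) * (4 * ht T ^ 2) := by linarith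
        exact lt_of_mul_lt_mul_right this hpos.le
      have : η * |r - b| ≤ η * |r - a| + η * (b - a) := by nlinarith
      nlinarith [abs_nonneg (r - a)]
    · have h' : |r - b| < η * |r - a| := by
        have : |r - b| * (4 * ht T ^ 2) < (η * |r - a|) * (4 * ht T ^ 2) := by linarith
        exact lt_of_mul_lt_mul_right this hpos.le
      have : η * |r - a| ≤ η * |r - b| + η * (b - a) := by nlinarith
      nlinarith [abs_nonneg (r - b)]

end Pool.Agent.K7.H47.MI_NECB
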