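import Pool.Agent.K7.H97.MI.Basic

/-!
Job STC of project MI.
-/

set_option autoImplicit false
set_option linter.unusedVariables false

open Polynomial

namespace Pool.Agent.K7.H47.MI_STC

open Pool.Agent.K7.H97.MI

/-- a polynomial with prescribed signs on the complement of a finite set -/
theorem sign_poly (Z : Finset ℝ) : ∀ D : ℝ → Prop,
    (∀ x y, (∀ z ∈ Z, z ∉ Set.uIcc x y) → (D x → D y)) →
    ∃ a : ℝ[X], (∀ x, x ∉ Z → (D x → 0 < a.eval x) ∧ (¬ D x → a.eval x < 0)) ∧
      ∀ z ∈ Z, a.eval z = 0 := by
  classical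
  induction Z using Finset.induction_on_max with
  | empty =>
    intro D hD
    by_cases h : D 0
    · exact ⟨1, fun x hx => ⟨fun _ => by simp, fun h' => absurd (hD 0 x (by simp) h) h'⟩, by simp⟩
    · exact ⟨-1, fun x hx => ⟨fun h' => absurd (hD x 0 (by simp) h') h, fun _ => by simp⟩, by simp⟩
  | insert c T hmax ih =>
    intro D hD
    obtain ⟨m, hm1, hm2⟩ : ∃ m, (∀ z ∈ T, z < m) ∧ m < c := by
      rcases T.eq_empty_or_nonempty with rfl | hne
      · exact ⟨c - 1, by simp, by linarith⟩
      · have h1 : T.max' hne < c := hmax _ (T.max'_mem hne)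
        refine ⟨(T.max' hne + c) / 2, fun z hz => ?_, by linarith⟩
        have := T.le_max' z hz
        linarith
    let D' : ℝ → Prop := fun x => if x < c then D x else D m
    have d1 : ∀ x, x < c → (D' x ↔ D x) := fun x hx => by simp only [D', if_pos hx]
    have d2 : ∀ x, c ≤ x → (D' x ↔ D m) := fun x hx => by simp only [D', if_neg (not_lt.2 hx)]
    have hlow : ∀ x y, x < c → y < c → (∀ z ∈ T, z ∉ Set.uIcc x y) → D x → D y := by
      intro x y hx hy h
      refine hD x y (fun z hz hz' => ?_)
      rcases Finset.mem_insert.1 hz with rfl | hz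
      · rw [Set.mem_uIcc] at hz'
        rcases hz' with h' | h' <;> linarith [h'.1, h'.2]
      · exact h z hz hz'
    obtain ⟨a', ha1, ha2⟩ := ih D' (by
      intro x y h hx
      rcases lt_or_ge x c with hxc | hxc
      · rcases lt_or_ge y c with hyc | hyc
        · rw [d1 y hyc]
          exact hlow x y hxc hyc h ((d1 x hxc).1 hx)
        · rw [d2 y hyc]
          refine hlow x m hxc hm2 (fun z hz hz' => ?_) ((d1 x hxc).1 hx)
          apply h z hz
          have hzm := hm1 z hz
          rw [Set.mem_uIcc] at hz' ⊢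
          left
          rcases hz' with h' | h'
          · exact ⟨h'.1, by linarith⟩
          · linarith [h'.1]
      · rcases lt_or_ge y c with hyc | hyc
        · rw [d1 y hyc]
          refine hlow m y hm2 hyc (fun z hz hz' => ?_) ((d2 x hxc).1 hx)
          apply h z hz
          have hzm := hm1 z hz
          rw [Set.mem_uIcc] at hz' ⊢
          right
          rcases hz' with h' | h'
          · linarith [h'.1]
          · exact ⟨h'.1, by linarith⟩
        · rw [d2 y hyc]
          exact (d2 x hxc).1 hx)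
    have hup : ∀ x y, c < x → c < y → D x → D y := by
      intro x y hx hy
      refine hD x y (fun z hz hz' => ?_)
      have hzc : z ≤ c := by
        rcases Finset.mem_insert.1 hz with rfl | hz
        · exact le_rfl
        · exact (hmax z hz).le
      rw [Set.mem_uIcc] at hz'
      rcases hz' with h' | h' <;> linarith [h'.1, h'.2]
    by_cases hcase : D m ↔ D (c + 1)
    · refine ⟨a' * (X - C c) ^ 2, fun x hx => ?_, fun z hz => ?_⟩
      · rw [Finset.mem_insert, not_or] at hx
        have hpos : 0 < (x - c) ^ 2 := by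
          have : x - c ≠ 0 := sub_ne_zero.2 hx.1
          positivity
        have key : D' x ↔ D x := by
          rcases lt_or_gt_of_ne hx.1 with h | h
          · exact d1 x h
          · rw [d2 x h.le, hcase]
            exact ⟨hup _ _ (by linarith) h, hup _ _ h (by linarith)⟩
        rw [← key]
        simp only [eval_mul, eval_pow, eval_sub, eval_X, eval_C]
        exact ⟨fun h => mul_pos ((ha1 x hx.2).1 h) hpos,
          fun h => mul_neg_of_neg_of_pos ((ha1 x hx.2).2 h) hpos⟩
      · simp only [eval_mul, eval_pow, eval_sub, eval_X, eval_C]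
        rcases Finset.mem_insert.1 hz with rfl | hz
        · simp
        · rw [ha2 z hz, zero_mul]
    · refine ⟨a' * (C c - X), fun x hx => ?_, fun z hz => ?_⟩
      · rw [Finset.mem_insert, not_or] at hx
        simp only [eval_mul, eval_sub, eval_X, eval_C]
        rcases lt_or_gt_of_ne hx.1 with h | h
        · have h' : 0 < c - x := by linarith
          rw [← d1 x h]
          exact ⟨fun h => mul_pos ((ha1 x hx.2).1 h) h',
            fun h => mul_neg_of_neg_of_pos ((ha1 x hx.2).2 h) h'⟩
        · have h' : c - x < 0 := by linarith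
          have key : D x ↔ ¬ D' x := by
            rw [d2 x h.le]
            have : D x ↔ D (c + 1) := ⟨hup _ _ h (by linarith), hup _ _ (by linarith) h⟩
            rw [this]
            tauto
          rw [key, not_not]
          exact ⟨fun h => mul_pos_of_neg_of_neg ((ha1 x hx.2).2 h) h',
            fun h => mul_neg_of_pos_of_neg ((ha1 x hx.2).1 h) h'⟩
      · simp only [eval_mul, eval_sub, eval_X, eval_C]
        rcases Finset.mem_insert.1 hz with rfl | hz
        · simp
        · rw [ha2 z hz, zero_mul]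

theorem rr_smul {c : ℝ} (hc : c ≠ 0) (T : M2) : rr (c • T) = rr T := by
  rw [rr, rr, ht_smul, dd_smul, mul_pow, mul_div_mul_left _ _ (pow_ne_zero 2 hc)]

theorem stc : StC := by
  intro P Z A hP hZ0 hA hcov hreal
  obtain ⟨f, hf1, hf2⟩ := sign_poly Z (fun r => r ∈ A 1) (fun x y h => hA 1 x y h)
  obtain ⟨g, hg1, hg2⟩ := sign_poly Z (fun r => r ∈ A (-1)) (fun x y h => hA (-1) x y h)
  obtain ⟨n, hn⟩ := hP.local
  set k := f.natDegree + g.natDegree + 1 with hk
  have hfk : f.natDegree < 2 * k := by omega
  have hgk : g.natDegree < 2 * k := by omega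
  -- the scalar factor, with `l` in place of the fresh variable
  let u : M2 → ℝ → ℝ := fun T l =>
    ht T * (Nh f k (dd T) (ht T ^ 2) - l ^ 2 * Nh g k (dd T) (ht T ^ 2))
  have hu0 : ∀ (T : M2) (l : ℝ), ht T = 0 → u T l = 0 := by
    intro T l h
    simp only [u, h, zero_mul]
  have hu1 : ∀ (T : M2) (l : ℝ), ht T ≠ 0 →
      u T l = ht T * (ht T ^ 2) ^ (2 * k) * (f.eval (rr T) - l ^ 2 * g.eval (rr T)) := by
    intro T l h
    simp only [u]
    rw [Nh_eq hfk (pow_ne_zero 2 h), Nh_eq hgk (pow_ne_zero 2 h), rr]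
    ring
  have hTR : TR (fun x => u (P x) (ht (x n)) • P x) := by
    refine PR.smul ?_ hP
    exact hP.ht.mul ((hP.Nh f k).sub (((TR.var n).ht.pow 2).mul (hP.Nh g k)))
  refine ⟨_, hTR, fun key0 hkey0 => ?_⟩
  -- the key of the new value
  have hkey : ∀ (T : M2) (l : ℝ), key (u T l • T) ≠ Key.zero → ht T ≠ 0 ∧ rr T ∉ Z ∧
      f.eval (rr T) - l ^ 2 * g.eval (rr T) ≠ 0 ∧
      key (u T l • T) = Key.reg (rr T)
        (SignType.sign (f.eval (rr T) - l ^ 2 * g.eval (rr T))) := by
    intro T l h
    have h1 : ht T ≠ 0 := by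
      intro h1
      apply h
      rw [hu0 T l h1, zero_smul, key_zero]
    have h2 : f.eval (rr T) - l ^ 2 * g.eval (rr T) ≠ 0 := by
      intro h2
      apply h
      rw [hu1 T l h1, h2, mul_zero, zero_smul, key_zero]
    have h3 : rr T ∉ Z := by
      intro h3
      apply h2
      rw [hf2 _ h3, hg2 _ h3]; ring
    have h4 : tl T ≠ 0 := by
      intro h4
      apply h3
      rw [rr, tl_eq_zero_of_dd h4, zero_div]; exact hZ0
    have hune : u T l ≠ 0 := by
      rw [hu1 T l h1]
      exact mul_ne_zero (mul_ne_zero h1 (pow_ne_zero _ (pow_ne_zero 2 h1))) h2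
    refine ⟨h1, h3, h2, ?_⟩
    rw [key_eq_reg, ht_smul, tl_smul]
    refine ⟨mul_ne_zero hune h1, smul_ne_zero hune h4, ?_, ?_⟩
    · exact rr_smul hune T
    · have e : u T l * ht T = (ht T ^ 2 * (ht T ^ 2) ^ (2 * k)) *
          (f.eval (rr T) - l ^ 2 * g.eval (rr T)) := by
        rw [hu1 T l h1]; ring
      have hpos : 0 < ht T ^ 2 * (ht T ^ 2) ^ (2 * k) := by positivity
      rw [e, sign_mul, sign_pos hpos, one_mul]
  constructor
  · rintro ⟨r, s, rfl, hs, hr, hrZ⟩
    obtain ⟨x, hx1, hx2⟩ := hreal s hs r hr hrZ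
    -- choose `l`
    obtain ⟨l, hl⟩ : ∃ l : ℝ, SignType.sign (f.eval r - l ^ 2 * g.eval r) = s := by
      rcases s with _ | _ | _
      · exact absurd rfl hs
      · -- s = -1
        have hgr : 0 < g.eval r := (hg1 r hrZ).1 hr
        refine ⟨Real.sqrt ((|f.eval r| + 1) / g.eval r), sign_neg ?_⟩
        rw [Real.sq_sqrt (by positivity), div_mul_cancel₀ _ hgr.ne']
        linarith [le_abs_self (f.eval r)]
      · have hfr : 0 < f.eval r := (hf1 r hrZ).1 hr
        exact ⟨0, by simpa using sign_pos hfr⟩
    refine ⟨Function.update x n (l • (1 : M2)), ?_⟩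
    simp only [Function.update_self]
    rw [fresh hn le_rfl, ht_smul_one]
    have h3 : u (P x) l • P x ≠ 0 := by
      have hne : f.eval r - l ^ 2 * g.eval r ≠ 0 := by
        intro h
        rw [h, sign_zero] at hl
        exact hs hl.symm
      apply smul_ne_zero
      · rw [hu1 _ l hx1, hx2]
        exact mul_ne_zero (mul_ne_zero hx1 (pow_ne_zero _ (pow_ne_zero 2 hx1))) hne
      · exact ne_zero_of_ht hx1
    have h4 := (hkey (P x) l (fun h => h3 (key_eq_zero.1 h))).2.2.2
    rw [h4, hx2, hl]
  · rintro ⟨x, rfl⟩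
    obtain ⟨h1, h2, h3, h4⟩ := hkey (P x) (ht (x n)) hkey0
    refine ⟨_, _, h4, ?_, ?_, h2⟩
    · intro h
      exact h3 (sign_eq_zero_iff.1 h)
    · have hd := hcov x h1 h2
      rcases lt_or_gt_of_ne h3 with h | h
      · rw [sign_neg h]
        by_contra hno
        have hg := (hg1 _ h2).2 hno
        have hf := (hf1 _ h2).1 (by
          rcases hd with hd | hd
          · exact hd
          · exact absurd hd hno)
        have := mul_nonneg (sq_nonneg (ht (x n))) (neg_nonneg.2 hg.le)
        linarith
      · rw [sign_pos h]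
        by_contra hno
        have hf := (hf1 _ h2).2 hno
        have hg := (hg1 _ h2).1 (by
          rcases hd with hd | hd
          · exact absurd hd hno
          · exact hd)
        have := mul_nonneg (sq_nonneg (ht (x n))) hg.le
        linarith

end Pool.Agent.K7.H47.MI_STC
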