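import Pool.Agent.K7.H97.MI.Basic

/-!
Job STEPR of project MI.
-/

set_option autoImplicit false
set_option linter.unusedVariables false

namespace Pool.Agent.K7.H47.MI_STEPR

open Pool.Agent.K7.H97.MI

theorem key_congr {T T' : M2} {c : ℝ} (hc : 0 < c) (h1 : ht T' = c * ht T)
    (h2 : dd T' = c ^ 2 * dd T) (h3 : tl T' = 0 ↔ tl T = 0) : key T' = key T := by
  have hs : SignType.sign (c * ht T) = SignType.sign (ht T) := by
    rw [sign_mul, sign_pos hc, one_mul]
  rcases key_cases T with h | h | h | h | h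
  · have e1 : tl T = 0 := by rw [h.1]; simp [tl, ht]
    have e2 : ht T = 0 := by rw [h.1]; simp [ht]
    have e3 : T' = 0 := by
      rw [← ht_add_tl T', h1, e2, h3.2 e1]; simp
    rw [e3, key_zero, h.2]
  · rw [h.2.2, key_eq_sc, h1]
    exact ⟨mul_ne_zero hc.ne' h.1, h3.2 h.2.1, hs⟩
  · rw [h.2.2, key_eq_reg, h1]
    refine ⟨mul_ne_zero hc.ne' h.1, fun h4 => h.2.1 (h3.1 h4), ?_, hs⟩
    rw [rr, rr, h1, h2, mul_pow, mul_div_mul_left _ _ (pow_ne_zero 2 hc.ne')]
  · rw [h.2.2.2, key_eq_inf, h1, h.1, mul_zero, h2]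
    refine ⟨rfl, mul_ne_zero (pow_ne_zero 2 hc.ne') h.2.1, ?_⟩
    rw [sign_mul, sign_pos (pow_pos hc 2), one_mul]
  · rw [h.2.2.2, key_eq_nil, h1, h.1, mul_zero, h2, h.2.1, mul_zero]
    exact ⟨rfl, rfl, fun h4 => h.2.2.1 (h3.1 h4)⟩

/-- matrices without scalar part -/
theorem tl_eq_zero_iff (T : M2) : tl T = 0 ↔ T 0 1 = 0 ∧ T 1 0 = 0 ∧ T 0 0 = T 1 1 := by
  constructor
  · intro h
    have h1 := congrFun (congrFun h 0) 1
    have h2 := congrFun (congrFun h 1) 0
    have h3 := congrFun (congrFun h 0) 0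
    simp [tl, ht, Matrix.trace_fin_two] at h1 h2 h3
    exact ⟨h1, h2, by linarith⟩
  · rintro ⟨h1, h2, h3⟩
    ext i j
    fin_cases i <;> fin_cases j <;> simp [tl, ht, Matrix.trace_fin_two, h1, h2, h3]

theorem exists_comm {T : M2} (h : tl T ≠ 0) : ∃ v : M2, (T * v - v * T).det ≠ 0 := by
  rw [Ne, tl_eq_zero_iff] at h
  obtain ⟨a, b, c, d, rfl⟩ : ∃ a b c d : ℝ, T = !![a, b; c, d] := ⟨_, _, _, _, Matrix.eta_fin_two T⟩
  by_cases h1 : c = 0
  · by_cases h2 : b = 0
    · have h3 : a ≠ d := fun h3 => h (by simp [h1, h2, h3])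
      refine ⟨!![0, 1; 1, 0], ?_⟩
      have : (!![a, b; c, d] * !![0, 1; 1, 0] - !![0, 1; 1, 0] * !![a, b; c, d]).det
          = (a - d) ^ 2 := by
        rw [Matrix.mul_fin_two, Matrix.mul_fin_two, Matrix.det_fin_two]
        simp [h1, h2]
        ring
      rw [this]
      exact pow_ne_zero 2 (sub_ne_zero.2 h3)
    · refine ⟨!![0, 0; 1, 0], ?_⟩
      have : (!![a, b; c, d] * !![0, 0; 1, 0] - !![0, 0; 1, 0] * !![a, b; c, d]).det
          = - b ^ 2 := by
        rw [Matrix.mul_fin_two, Matrix.mul_fin_two, Matrix.det_fin_two]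
        simp
        ring
      rw [this]
      exact neg_ne_zero.2 (pow_ne_zero 2 h2)
  · refine ⟨!![0, 1; 0, 0], ?_⟩
    have : (!![a, b; c, d] * !![0, 1; 0, 0] - !![0, 1; 0, 0] * !![a, b; c, d]).det
        = - c ^ 2 := by
      rw [Matrix.mul_fin_two, Matrix.mul_fin_two, Matrix.det_fin_two]
      simp
      ring
    rw [this]
    exact neg_ne_zero.2 (pow_ne_zero 2 h1)

theorem comm_of_tl {T v : M2} (h : tl T = 0) : (T * v - v * T).det = 0 := by
  obtain ⟨h1, h2, h3⟩ := (tl_eq_zero_iff T).1 h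
  simp [Matrix.det_fin_two, Matrix.mul_apply, Fin.sum_univ_two, h1, h2, h3]
  ring

/-- the conjugation by a square, made polynomial -/
noncomputable def cj (v T : M2) : M2 :=
  v * v * T * (v.trace • (1 : M2) - v) * (v.trace • (1 : M2) - v)

theorem cj_ht (v T : M2) : ht (cj v T) = v.det ^ 2 * ht T := by
  simp [cj, ht, Matrix.trace_fin_two, Matrix.det_fin_two, Matrix.mul_apply, Fin.sum_univ_two]
  ring

theorem det_adj (v : M2) : (v.trace • (1 : M2) - v).det = v.det := by
  simp [Matrix.trace_fin_two, Matrix.det_fin_two]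
  ring

theorem cj_det (v T : M2) : (cj v T).det = v.det ^ 4 * T.det := by
  rw [cj, Matrix.det_mul, Matrix.det_mul, Matrix.det_mul, Matrix.det_mul, det_adj]
  ring

theorem dd_eq (T : M2) : dd T = ht T ^ 2 - T.det := by simp [ht, dd]

theorem cj_dd (v T : M2) : dd (cj v T) = (v.det ^ 2) ^ 2 * dd T := by
  rw [dd_eq, dd_eq, cj_ht, cj_det]
  ring

theorem mul_adj (v : M2) : v * (v.trace • (1 : M2) - v) = v.det • (1 : M2) := by
  ext i j
  fin_cases i <;> fin_cases j <;>
    simp [Matrix.trace_fin_two, Matrix.det_fin_two, Matrix.mul_apply, Fin.sum_univ_two] <;> ring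

theorem adj_mul (v : M2) : (v.trace • (1 : M2) - v) * v = v.det • (1 : M2) := by
  ext i j
  fin_cases i <;> fin_cases j <;>
    simp [Matrix.trace_fin_two, Matrix.det_fin_two, Matrix.mul_apply, Fin.sum_univ_two] <;> ring

theorem cj_smul_one (v : M2) (c : ℝ) : cj v (c • (1 : M2)) = (v.det ^ 2 * c) • (1 : M2) := by
  have h : cj v (c • (1 : M2)) = c • (v * (v * (v.trace • (1 : M2) - v)) *
      (v.trace • (1 : M2) - v)) := by
    simp [cj, mul_assoc]
  rw [h, mul_adj, mul_smul_comm, mul_one, smul_mul_assoc, mul_adj, smul_smul, smul_smul]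
  congr 1
  ring

theorem cj_tl (v T : M2) : tl (cj v T) = cj v (tl T) := by
  have h1 : cj v T = cj v (ht T • (1 : M2)) + cj v (tl T) := by
    conv_lhs => rw [← ht_add_tl T]
    simp only [cj, mul_add, add_mul]
  rw [tl, cj_ht, h1, cj_smul_one]
  abel

theorem cj_inj {v T : M2} (hv : v.det ≠ 0) (h : cj v T = 0) : T = 0 := by
  have h1 : (v.trace • (1 : M2) - v) * ((v.trace • (1 : M2) - v) * cj v T * v) * v
      = (v.det ^ 4) • T := by
    have e : (v.trace • (1 : M2) - v) * ((v.trace • (1 : M2) - v) * cj v T * v) * v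
        = (v.trace • (1 : M2) - v) * (((v.trace • (1 : M2) - v) * v) * (v * T *
          (v.trace • (1 : M2) - v)) * ((v.trace • (1 : M2) - v) * v)) * v := by
      simp only [cj, mul_assoc]
    rw [e, adj_mul]
    have e2 : (v.trace • (1 : M2) - v) * (v.det • (1 : M2) * (v * T *
          (v.trace • (1 : M2) - v)) * (v.det • (1 : M2))) * v
        = (v.det ^ 2) • (((v.trace • (1 : M2) - v) * v) * T *
          ((v.trace • (1 : M2) - v) * v)) := by
      simp only [smul_mul_assoc, mul_smul_comm, one_mul, mul_one, smul_smul, mul_assoc]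
      congr 1
      ring
    rw [e2, adj_mul]
    simp only [smul_mul_assoc, mul_smul_comm, one_mul, mul_one, smul_smul]
    congr 1
    ring
  rw [h] at h1
  simp only [mul_zero, zero_mul] at h1
  exact (smul_eq_zero.1 h1.symm).resolve_left (pow_ne_zero 4 hv)

theorem cj_zero (v : M2) : cj v 0 = 0 := by simp [cj]

theorem cj_one (T : M2) : cj 1 T = T := by
  have h : ((1 : M2).trace • (1 : M2) - 1) = 1 := by
    rw [Matrix.trace_one]
    simp only [Fintype.card_fin, Nat.cast_ofNat]
    rw [two_smul]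
    abel
  rw [cj, h]
  simp

theorem key_cj {v T : M2} (hv : v.det ≠ 0) : key (cj v T) = key T := by
  apply key_congr (c := v.det ^ 2) (by positivity) (cj_ht v T) (cj_dd v T)
  rw [cj_tl]
  exact ⟨cj_inj hv, fun h => by rw [h, cj_zero]⟩

theorem key_cj_zero {v T : M2} (hv : v.det = 0) :
    key (cj v T) = Key.zero ∨ key (cj v T) = Key.nil := by
  have h1 : ht (cj v T) = 0 := by rw [cj_ht, hv]; ring
  have h2 : dd (cj v T) = 0 := by rw [cj_dd, hv]; ring
  by_cases h3 : tl (cj v T) = 0
  · left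
    rw [key_eq_zero, ← ht_add_tl (cj v T), h1, h3]; simp
  · right
    exact key_nil h3 h1 h2

theorem exists_cj {T : M2} (h : tl T ≠ 0) : ∃ v : M2, key (cj v T) = Key.nil := by
  have key' : ∀ v : M2, v.det = 0 → cj v T ≠ 0 → key (cj v T) = Key.nil := by
    intro v h1 h2
    rcases key_cj_zero (v := v) (T := T) h1 with h3 | h3
    · exact absurd (key_eq_zero.1 h3) h2
    · exact h3
  rw [Ne, tl_eq_zero_iff] at h
  obtain ⟨a, b, c, d, rfl⟩ : ∃ a b c d : ℝ, T = !![a, b; c, d] := ⟨_, _, _, _, Matrix.eta_fin_two T⟩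
  by_cases h1 : b = 0
  · by_cases h2 : c = 0
    · have h3 : a ≠ d := fun h3 => h (by simp [h1, h2, h3])
      refine ⟨!![1, 1; 0, 0], key' _ (by simp [Matrix.det_fin_two]) ?_⟩
      intro h4
      have h5 := congrFun (congrFun h4 0) 1
      have e : (!![1, 1; 0, 0] : M2).trace • (1 : M2) - !![1, 1; 0, 0] = !![0, -1; 0, 1] := by
        ext i j
        fin_cases i <;> fin_cases j <;> simp [Matrix.trace_fin_two]
      rw [cj, e] at h5
      simp only [Matrix.mul_fin_two] at h5
      simp [h1, h2] at h5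
      apply h3
      linarith
    · refine ⟨!![0, 0; 0, 1], key' _ (by simp [Matrix.det_fin_two]) ?_⟩
      intro h4
      have h5 := congrFun (congrFun h4 1) 0
      have e : (!![0, 0; 0, 1] : M2).trace • (1 : M2) - !![0, 0; 0, 1] = !![1, 0; 0, 0] := by
        ext i j
        fin_cases i <;> fin_cases j <;> simp [Matrix.trace_fin_two]
      rw [cj, e] at h5
      simp only [Matrix.mul_fin_two] at h5
      simp at h5
      exact h2 h5
  · refine ⟨!![1, 0; 0, 0], key' _ (by simp [Matrix.det_fin_two]) ?_⟩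
    intro h4
    have h5 := congrFun (congrFun h4 0) 1
    have e : (!![1, 0; 0, 0] : M2).trace • (1 : M2) - !![1, 0; 0, 0] = !![0, 0; 0, 1] := by
      ext i j
      fin_cases i <;> fin_cases j <;> simp [Matrix.trace_fin_two]
    rw [cj, e] at h5
    simp only [Matrix.mul_fin_two] at h5
    simp at h5
    exact h1 h5

theorem tl_ne_of_key {T : M2} {k : Key} (h : key T = k) (h0 : k ≠ Key.zero)
    (hs : ∀ s, k ≠ Key.sc s) : tl T ≠ 0 := by
  rcases key_cases T with h1 | h1 | h1 | h1 | h1
  · exact absurd (h.symm.trans h1.2) h0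
  · exact absurd (h.symm.trans h1.2.2) (hs _)
  · exact h1.2.1
  · exact h1.2.2.1
  · exact h1.2.2.1

theorem stepR : StR := by
  constructor
  · rintro K ⟨P, hP, hK⟩
    obtain ⟨n, hn⟩ := hP.local
    have hTR : TR (fun x => ((P x * x n - x n * P x).det) ^ 2 • P x) :=
      PR.smul ((((hP.mul (TR.var n)).sub ((TR.var n).mul hP)).det).pow 2) hP
    refine ⟨_, hTR, fun k hk => ?_⟩
    constructor
    · rintro ⟨hkK, hks⟩
      obtain ⟨x, hx⟩ := (hK k hk).1 hkK
      obtain ⟨v, hv⟩ := exists_comm (tl_ne_of_key hx hk hks)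
      refine ⟨Function.update x n v, ?_⟩
      simp only [Function.update_self]
      rw [fresh hn le_rfl, key_smul (by positivity), hx]
    · rintro ⟨x, hx⟩
      by_cases h0 : (P x * x n - x n * P x).det = 0
      · exfalso
        apply hk
        rw [← hx, key_eq_zero, h0]
        simp
      · have h1 : tl (P x) ≠ 0 := fun h1 => h0 (comm_of_tl h1)
        have h2 : key (P x) = k := by
          rw [← hx, key_smul (by positivity)]
        refine ⟨(hK k hk).2 ⟨x, h2⟩, ?_⟩
        rintro s rfl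
        exact h1 (key_eq_sc.1 h2).2.1
  · rintro K ⟨P, hP, hK⟩ ⟨k0, hk0, hk0z, hk0s⟩
    obtain ⟨n, hn⟩ := hP.local
    have hTR : TR (fun x => cj (x n) (P x)) := by
      unfold cj
      have h1 : TR (fun x : Om => (x n).trace • (1 : M2) - x n) := (TR.var n).tr.sub (TR.var n)
      exact ((((TR.var n).mul (TR.var n)).mul hP).mul h1).mul h1
    refine ⟨_, hTR, fun k hk => ?_⟩
    constructor
    · intro h
      rcases Set.mem_insert_iff.1 h with rfl | hkK
      · obtain ⟨x, hx⟩ := (hK k0 hk0z).1 hk0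
        obtain ⟨v, hv⟩ := exists_cj (tl_ne_of_key hx hk0z hk0s)
        refine ⟨Function.update x n v, ?_⟩
        simp only [Function.update_self]
        rw [fresh hn le_rfl, hv]
      · obtain ⟨x, hx⟩ := (hK k hk).1 hkK
        refine ⟨Function.update x n 1, ?_⟩
        simp only [Function.update_self]
        rw [fresh hn le_rfl, cj_one, hx]
    · rintro ⟨x, hx⟩
      by_cases h0 : (x n).det = 0
      · rcases key_cj_zero (v := x n) (T := P x) h0 with h1 | h1
        · exact absurd (hx.symm.trans h1) hk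
        · left
          exact hx.symm.trans h1
      · right
        have h2 : key (P x) = k := by
          rw [← key_cj h0]; exact hx
        exact (hK k hk).2 ⟨x, h2⟩

end Pool.Agent.K7.H47.MI_STEPR
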